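import Pool.Agent.Q19.TR.Local3

/-!
# The discriminants and the bad primes of the trinomial curves
-/

set_option autoImplicit false

namespace Pool.Agent.Q19.TR

open Polynomial NumberField IsDedekindDomain Pool.Agent.H691R3
open Pool.Agent.TH876.Loc (Pr Pt M df L one_le_M sp mem_sp hgt df_nonneg hgt_nonneg)
open Pool.Agent.TH876.KR (df_inr df_int)
open Pool.Agent.W318 (Eqv IsHyp GoodForm discN minExp discNorm badNorm)
open Pool.Agent.Y733.FF (val_exp fv_exp fv_one_iff fv_le_one_iff)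
open Pool.Agent.Q19.JL (T6 mem_T6 zz n1728 zz_add pt_zz fv_zz fv_zz1 cases4 ll ll_zero ll_pos RR
  RR_eq AA DD DD_le sum_AA sum_df_le Iv ll_nonneg)

variable {K : Type} [Field K] [NumberField K]

/-- the primes above `6 (m + 1)!` -/
noncomputable def TB (K : Type) [Field K] [NumberField K] (m : ℕ) : Finset (Pr K) :=
  (Pool.Agent.H691R3.fv_support_finite (K := K)
    (show (((6 * (m + 1).factorial : ℕ)) : K) ≠ 0 from
      Nat.cast_ne_zero.2 (Nat.mul_ne_zero (by norm_num) (Nat.factorial_ne_zero _)))).toFinset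

theorem mem_TB (m : ℕ) (v : Pr K) :
    v ∈ TB K m ↔ fv v (((6 * (m + 1).factorial : ℕ)) : K) ≠ 1 := by
  unfold TB
  rw [Set.Finite.mem_toFinset]
  rfl

theorem fv_dvd (v : Pr K) {N k : ℕ} (hN : fv v (N : K) = 1) (hk : k ∣ N) : fv v (k : K) = 1 := by
  obtain ⟨l, rfl⟩ := hk
  push_cast at hN
  rw [map_mul] at hN
  have h1 := Pool.Agent.TH876.Loc.fv_natCast_le v k
  have h2 := Pool.Agent.TH876.Loc.fv_natCast_le v l
  have h3 : 0 ≤ fv v (l : K) := AbsoluteValue.nonneg _ _
  have h4 : 0 ≤ fv v (k : K) := AbsoluteValue.nonneg _ _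
  apply le_antisymm h1
  nlinarith

theorem off_TB {m : ℕ} (hm : 1 ≤ m) {v : Pr K} (hv : v ∉ TB K m) : fv v ((2 : ℕ) : K) = 1 ∧
    fv v (m : K) = 1 ∧ fv v ((m + 1 : ℕ) : K) = 1 ∧ v ∉ T6 K := by
  rw [mem_TB, not_not] at hv
  have h1 : (m + 1).factorial ∣ 6 * (m + 1).factorial := Dvd.intro_left _ rfl
  refine ⟨fv_dvd v hv ⟨3 * (m + 1).factorial, by ring⟩,
    fv_dvd v hv ((Nat.dvd_factorial (by omega) (by omega)).trans h1),
    fv_dvd v hv ((Nat.dvd_factorial (by omega) le_rfl).trans h1), ?_⟩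
  rw [mem_T6, not_not]
  have := fv_dvd v hv (k := 6) (Dvd.intro _ rfl)
  exact_mod_cast this

theorem cst_zero {g m : ℕ} (hm : 1 ≤ m) {v : Pr K} (hv : v ∉ TB K m) : cst g m v = 0 := by
  obtain ⟨h1, h2, h3, -⟩ := off_TB hm hv
  unfold cst
  rw [h1, h2, h3, Real.log_one]
  ring

/-- the sum of the constants -/
noncomputable def CC (K : Type) [Field K] [NumberField K] (g m : ℕ) : ℝ :=
  ∑ v ∈ TB K m, cst g m v

open Classical in
theorem sum_cst {g m : ℕ} (hm : 1 ≤ m) (S : Finset (Pr K)) :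
    ∑ v ∈ S, cst g m v ≤ CC K g m := by
  have h1 : ∑ v ∈ S, cst g m v = ∑ v ∈ S.filter (· ∈ TB K m), cst g m v := by
    rw [Finset.sum_filter]
    refine Finset.sum_congr rfl fun v _ => ?_
    split_ifs with h
    · rfl
    · exact cst_zero hm h
  rw [h1]
  refine Finset.sum_le_sum_of_subset_of_nonneg ?_ fun v _ _ => cst_nonneg g m v
  intro v hv
  exact (Finset.mem_filter.1 hv).2

theorem log_disc {g : ℕ} {F : K[X]} (S : Finset (Pr K))
    (hS : ∀ v, minExp g F v ≠ 0 → v ∈ S) :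
    Real.log (discNorm g F) = ∑ v ∈ S, (minExp g F v : ℝ) * Real.log (Nv v) := by
  rw [Pool.Agent.W318.discNorm_eq S hS]
  push_cast
  rw [Real.log_prod fun v _ => ?_]
  · refine Finset.sum_congr rfl fun v _ => ?_
    rw [Real.log_pow]
    rfl
  · have h1 : (2 : ℝ) ≤ (Ideal.absNorm v.asIdeal : ℝ) := two_le_Nv v
    have h2 : (0 : ℝ) < (Ideal.absNorm v.asIdeal : ℝ) := by linarith
    positivity

theorem log_bad {g : ℕ} {F : K[X]} (S : Finset (Pr K))
    (hS : ∀ v, v ∈ S ↔ minExp g F v ≠ 0) :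
    Real.log (badNorm g F) = ∑ v ∈ S, Real.log (Nv v) := by
  rw [Pool.Agent.W318.badNorm_eq S hS]
  push_cast
  rw [Real.log_prod fun v _ => ?_]
  · rfl
  · have h1 : (2 : ℝ) ≤ (Ideal.absNorm v.asIdeal : ℝ) := two_le_Nv v
    have h2 : (0 : ℝ) < (Ideal.absNorm v.asIdeal : ℝ) := by linarith
    exact h2.ne'

theorem one_le_nat_norm (v : Pr K) : 0 < Ideal.absNorm v.asIdeal := by
  have := Pool.Agent.W318.one_le_absNorm v
  omega

theorem disc_pos (g : ℕ) (F : K[X]) : (0 : ℝ) < discNorm g F := by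
  have : 0 < discNorm g F := by
    unfold Pool.Agent.W318.discNorm
    exact finprod_induction (fun x : ℕ => 0 < x) one_pos (fun _ _ h1 h2 => Nat.mul_pos h1 h2)
      fun v => Nat.pow_pos (one_le_nat_norm v)
  exact_mod_cast this

theorem bad_pos (g : ℕ) (F : K[X]) : (0 : ℝ) < badNorm g F := by
  have : 0 < badNorm g F := by
    unfold Pool.Agent.W318.badNorm
    refine finprod_induction (fun x : ℕ => 0 < x) one_pos (fun _ _ h1 h2 => Nat.mul_pos h1 h2)
      fun v => ?_
    split_ifs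
    · exact one_pos
    · exact one_le_nat_norm v
  exact_mod_cast this

/-- the local inequality in terms of the defects of the point -/
theorem defect (g m : ℕ) (j : K) (v : Pr K) :
    (4 * g + 2) * Real.log (max 1 (fv v (j / 1728))) - m * Real.log (fv v (j / 1728)) -
        Real.log (fv v (1 - j / 1728)) ≤
      m * df (Sum.inr v : Pl K) 0 (zz j) + (4 * g + 1 - m) * df (Sum.inr v : Pl K) 1 (zz j) +
        df (Sum.inr v : Pl K) 2 (zz j) := by
  have e0 : fv v (L 0 (zz j)) = fv v (j / 1728) := by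
    show fv v (zz j) = _
    unfold zz
    rw [(fv v).map_neg]
  have e1 : fv v (L 1 (zz j)) = 1 := map_one _
  have e2 : fv v (L 2 (zz j)) = fv v (1 - j / 1728) := by
    have : L 2 (zz j) = -(1 - j / 1728) := by
      show -zz j - 1 = _
      unfold zz
      ring
    rw [this, (fv v).map_neg]
  rw [df_inr, df_inr, df_inr, e0, e1, e2, Real.log_one, sub_zero]
  have hM : M (Sum.inr v : Pl K) (zz j) = max (fv v (j / 1728)) (max 1 (fv v (1 - j / 1728))) := by
    show max (fv v (L 0 (zz j))) (max (fv v (L 1 (zz j))) (fv v (L 2 (zz j)))) = _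
    rw [e0, e1, e2]
  have hle : Real.log (max 1 (fv v (j / 1728))) ≤ Real.log (M (Sum.inr v : Pl K) (zz j)) := by
    refine Real.log_le_log (lt_of_lt_of_le one_pos (le_max_left _ _)) ?_
    rw [hM]
    exact max_le ((le_max_left _ _).trans (le_max_right _ _)) (le_max_left _ _)
  have hg0 : (0 : ℝ) ≤ 4 * g + 2 := by positivity
  have := mul_le_mul_of_nonneg_left hle hg0
  linarith

open Classical in
/-- the discriminant -/
theorem disc_up {g m : ℕ} (hm : m = 2 * g ∨ m = 2 * g + 1) (hg : 2 ≤ g) {j a b c : K}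
    (ha : a ≠ 0) (hb : b ≠ 0) (hc : c ≠ 0) (h0 : j ≠ 0) (h1 : j ≠ 1728)
    (h : IsInv m (j / 1728) a b c) :
    Real.log (discNorm g (tri m a b c)) ≤ (4 * g + 2) * Real.log (badNorm g (tri m a b c)) +
      (4 * g + 2) * hgt (zz j) + CC K g m := by
  have hs0 : j / 1728 ≠ 0 := div_ne_zero h0 n1728
  have hs1 : j / 1728 ≠ 1 := by
    rw [Ne, div_eq_one_iff_eq n1728]
    exact h1
  have hF := hyp_tri hm hg ha hb hc hs1 h
  have hx := pt_zz h0 h1
  set S := (Pool.Agent.W318.finite_bad hF).toFinset with hSdef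
  have hS : ∀ v, v ∈ S ↔ minExp g (tri m a b c) v ≠ 0 := by
    intro v
    rw [hSdef, Set.Finite.mem_toFinset]
    rfl
  rw [log_disc S fun v hv => (hS v).2 hv, log_bad S hS]
  have h3 : ∀ v ∈ S, (minExp g (tri m a b c) v : ℝ) * Real.log (Nv v) ≤
      (4 * g + 2) * Real.log (Nv v) + cst g m v + (m * df (Sum.inr v : Pl K) 0 (zz j) +
        (4 * g + 1 - m) * df (Sum.inr v : Pl K) 1 (zz j) + df (Sum.inr v : Pl K) 2 (zz j)) := by
    intro v hv
    have h4 := loc_up hm hg ha hb hc hs0 hs1 h v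
    rw [if_neg ((hS v).1 hv)] at h4
    have h5 := defect g m j v
    linarith
  refine (Finset.sum_le_sum h3).trans ?_
  rw [Finset.sum_add_distrib, Finset.sum_add_distrib, Finset.sum_add_distrib,
    Finset.sum_add_distrib, ← Finset.mul_sum, ← Finset.mul_sum, ← Finset.mul_sum]
  have a0 := sum_df_le hx 0 S
  have a1 := sum_df_le hx 1 S
  have a2 := sum_df_le hx 2 S
  have b0 := Pool.Agent.TH876.KR.aw_nonneg hx 0
  have b1 := Pool.Agent.TH876.KR.aw_nonneg hx 1
  have b2 := Pool.Agent.TH876.KR.aw_nonneg hx 2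
  have hc' := sum_cst (g := g) (by omega : 1 ≤ m) S
  have hm2 : (m : ℝ) ≤ 4 * g + 1 := by
    have : m ≤ 4 * g + 1 := by omega
    exact_mod_cast this
  have c0 : (m : ℝ) * ∑ v ∈ S, df (Sum.inr v : Pl K) 0 (zz j) ≤ m * hgt (zz j) :=
    mul_le_mul_of_nonneg_left (by linarith) (Nat.cast_nonneg _)
  have c1 : (4 * g + 1 - m : ℝ) * ∑ v ∈ S, df (Sum.inr v : Pl K) 1 (zz j) ≤
      (4 * g + 1 - m) * hgt (zz j) := mul_le_mul_of_nonneg_left (by linarith) (by linarith)
  linarith

/-- the sum over the exceptional primes -/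
noncomputable def CB (K : Type) [Field K] [NumberField K] (m : ℕ) : ℝ :=
  ∑ v ∈ TB K m, Real.log (Nv v)

open Classical in
/-- the bad primes -/
theorem bad_low {g m : ℕ} (hm : m = 2 * g ∨ m = 2 * g + 1) (hg : 2 ≤ g) {j a b c : K}
    (ha : a ≠ 0) (hb : b ≠ 0) (hc : c ≠ 0) (h0 : j ≠ 0) (h1 : j ≠ 1728)
    (h : IsInv m (j / 1728) a b c) :
    2 * RR (zz j) - 3 * hgt (zz j) - CB K m ≤ Real.log (badNorm g (tri m a b c)) := by
  have hs0 : j / 1728 ≠ 0 := div_ne_zero h0 n1728
  have hs1 : j / 1728 ≠ 1 := by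
    rw [Ne, div_eq_one_iff_eq n1728]
    exact h1
  have hF := hyp_tri hm hg ha hb hc hs1 h
  have hx := pt_zz h0 h1
  set S := (Pool.Agent.W318.finite_bad hF).toFinset with hSdef
  have hS : ∀ v, v ∈ S ↔ minExp g (tri m a b c) v ≠ 0 := by
    intro v
    rw [hSdef, Set.Finite.mem_toFinset]
    rfl
  rw [log_bad S hS]
  have d0 := DD_le hx 0
  have d1 := DD_le hx 1
  have d2 := DD_le hx 2
  rw [← sum_AA h0 h1]
  have key : ∑ v ∈ sp (zz j) \ T6 K, ((2 * ll v 0 (zz j) - df (Sum.inr v : Pl K) 0 (zz j)) +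
      (2 * ll v 1 (zz j) - df (Sum.inr v : Pl K) 1 (zz j)) +
      (2 * ll v 2 (zz j) - df (Sum.inr v : Pl K) 2 (zz j))) ≤
      ∑ v ∈ S ∪ TB K m, Real.log (Nv v) := by
    have h3 : ∀ v ∈ sp (zz j) \ T6 K, ((2 * ll v 0 (zz j) - df (Sum.inr v : Pl K) 0 (zz j)) +
      (2 * ll v 1 (zz j) - df (Sum.inr v : Pl K) 1 (zz j)) +
      (2 * ll v 2 (zz j) - df (Sum.inr v : Pl K) 2 (zz j))) ≤
        if v ∈ S ∪ TB K m then Real.log (Nv v) else 0 := by
      intro v hv
      rw [Finset.mem_sdiff, mem_sp hx] at hv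
      obtain ⟨hv1, hv2⟩ := hv
      have hl := log_Nv_pos v
      -- the value of the left hand side
      have val : ∀ k : ℕ, 1 ≤ k → (k = 1 → v ∉ TB K m → v ∈ S) →
          2 * Real.log (Nv v) - k * Real.log (Nv v) ≤
            if v ∈ S ∪ TB K m then Real.log (Nv v) else 0 := by
        intro k hk hS1
        rcases Nat.lt_or_ge 1 k with hk2 | hk2
        · have : (2 : ℝ) ≤ k := by exact_mod_cast hk2
          split_ifs
          · nlinarith
          · nlinarith
        · have hk1 : k = 1 := by omega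
          have : v ∈ S ∪ TB K m := by
            rw [Finset.mem_union]
            by_cases hT : v ∈ TB K m
            · exact Or.inr hT
            · exact Or.inl (hS1 hk1 hT)
          rw [if_pos this, hk1, Nat.cast_one]
          linarith
      have es : fv v (j / 1728) = fv v j := by
        have := fv_zz hv2 j
        unfold zz at this
        rwa [(fv v).map_neg] at this
      have es1 : fv v (1 - j / 1728) = fv v (j - 1728) := by
        have := fv_zz1 hv2 j
        rw [← this]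
        congr 1
        unfold zz
        ring
      have bad : ∀ p q : ℤ, Real.log (fv v j) = p * Real.log (Nv v) →
          Real.log (fv v (j - 1728)) = q * Real.log (Nv v) →
          ((p = 0 ∧ q = -1) ∨ (p = -1 ∧ q = 0) ∨ (p = 1 ∧ q = 1)) → v ∉ TB K m → v ∈ S := by
        intro p q hp hq hpq hT
        rw [hS]
        obtain ⟨t1, t2, t3, -⟩ := off_TB (by omega : 1 ≤ m) hT
        have t1' : v.valuation K (2 : K) = 1 := by
          rw [← fv_one_iff]
          exact_mod_cast t1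
        exact bad_simple hm hg ha hb hc hs0 hs1 h v t1' t2 t3 (by rw [es]; exact hp)
          (by rw [es1]; exact hq) hpq
      rcases cases4 hv2 h0 h1 with ⟨k, hk, a1, a2, a3, a4, a5⟩ | ⟨k, hk, a1, a2, a3, a4, a5⟩ |
        ⟨k, hk, a1, a2, a3, a4, a5⟩ | ⟨a1, a2, a3, a4, a5⟩
      · rw [ll_zero a3, ll_pos hk a4, ll_zero a5, a3, a4, a5]
        refine le_trans (by linarith) (val k hk fun hk1 hT => bad 1 1 ?_ ?_ (Or.inr (Or.inr
          ⟨rfl, rfl⟩)) hT)
        · rw [a1, hk1]; push_cast; ring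
        · rw [a2, hk1]; push_cast; ring
      · rw [ll_pos hk a3, ll_zero a4, ll_zero a5, a3, a4, a5]
        refine le_trans (by linarith) (val k hk fun hk1 hT => bad (-1) 0 ?_ ?_ (Or.inr (Or.inl
          ⟨rfl, rfl⟩)) hT)
        · rw [a1, hk1]; push_cast; ring
        · rw [a2, Real.log_one]; push_cast; ring
      · rw [ll_zero a3, ll_zero a4, ll_pos hk a5, a3, a4, a5]
        refine le_trans (by linarith) (val k hk fun hk1 hT => bad 0 (-1) ?_ ?_ (Or.inl
          ⟨rfl, rfl⟩) hT)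
        · rw [a1, Real.log_one]; push_cast; ring
        · rw [a2, hk1]; push_cast; ring
      · exact absurd ⟨by rw [fv_zz hv2]; exact a1, by rw [fv_zz1 hv2]; exact a2⟩ hv1
    refine (Finset.sum_le_sum h3).trans ?_
    rw [← Finset.sum_filter]
    refine Finset.sum_le_sum_of_subset_of_nonneg ?_ fun v _ _ => (log_Nv_pos v).le
    intro v hv
    exact (Finset.mem_filter.1 hv).2
  have key2 : ∑ v ∈ S ∪ TB K m, Real.log (Nv v) ≤ ∑ v ∈ S, Real.log (Nv v) + CB K m := by
    unfold CB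
    have := Finset.sum_union_inter (s₁ := S) (s₂ := TB K m) (f := fun v => Real.log (Nv v))
    have h5 : 0 ≤ ∑ v ∈ S ∩ TB K m, Real.log (Nv v) :=
      Finset.sum_nonneg fun v _ => (log_Nv_pos v).le
    linarith
  rw [Finset.sum_add_distrib, Finset.sum_add_distrib, Finset.sum_sub_distrib,
    Finset.sum_sub_distrib, Finset.sum_sub_distrib, ← Finset.mul_sum, ← Finset.mul_sum,
    ← Finset.mul_sum] at key
  unfold DD at d0 d1 d2
  unfold Pool.Agent.Q19.JL.AA
  linarith

/-- **Szpiro's inequality for all trinomial curves of almost all invariants.** -/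
theorem szp_up (K : Type) [Field K] [NumberField K] {g m : ℕ} (hm : m = 2 * g ∨ m = 2 * g + 1)
    (hg : 2 ≤ g) (κ c₀ : ℝ) (hκ : 4 * (4 * g + 2) / 3 < κ) :
    ∃ ν X₀ : ℝ, 0 < ν ∧ 1 ≤ X₀ ∧ ∀ X : ℝ, X₀ ≤ X → ∀ S : Set K, S ⊆ Iv K X →
      (∀ j ∈ S, ∃ a b c : K, a ≠ 0 ∧ b ≠ 0 ∧ c ≠ 0 ∧ IsInv m (j / 1728) a b c ∧
        κ * Real.log (badNorm g (tri m a b c)) + c₀ < Real.log (discNorm g (tri m a b c))) →
      ((S.ncard : ℕ) : ℝ) ≤ X ^ (-ν) * (Iv K X).ncard := by
  -- `κ - (4 g + 2) > (4 g + 2) / 3`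
  set w : ℝ := 4 * g + 2 with hw
  have hw0 : 0 < w := by positivity
  have hk1 : w / 3 < κ - w := by linarith
  have hk0 : 0 < κ - w := by linarith [div_pos hw0 (by norm_num : (0:ℝ) < 3)]
  -- choose `M` with `(κ - w) (2 / M - 3) = w`, that is `2 / M = 3 + w / (κ - w)`
  set D : ℝ := 3 + w / (κ - w) with hD
  have hD3 : 3 < D := by
    have := div_pos hw0 hk0
    linarith
  have hD6 : D < 6 := by
    have : w / (κ - w) < 3 := by
      rw [div_lt_iff₀ hk0]
      linarith
    linarith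
  have hM : 1 / 3 < 2 / D := by
    rw [div_lt_div_iff₀ (by norm_num) (by linarith)]
    linarith
  set B : ℝ := |CC K g m - c₀ + (κ - w) * CB K m| / (κ - w) with hB
  have hB0 : 0 ≤ B := div_nonneg (abs_nonneg _) hk0.le
  obtain ⟨ν, X₀, hν, hX₀, hmain⟩ := Pool.Agent.Q19.JL.exc_prop K B hM
  refine ⟨ν, X₀, hν, hX₀, fun X hX S hS hbad => hmain X hX S hS fun j hj => ?_⟩
  intro hcon
  obtain ⟨a, b, c, ha, hb, hc, hinv, hlt⟩ := hbad j hj
  obtain ⟨h0, h1, -⟩ := hS hj
  have hup := disc_up hm hg ha hb hc h0 h1 hinv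
  have hlo := bad_low hm hg ha hb hc h0 h1 hinv
  rw [← hw] at hup
  -- `hgt ≤ 2 / D RR - B`, so `2 RR ≥ D hgt + D B`
  have h2 : D * hgt (zz j) + D * B ≤ 2 * RR (zz j) := by
    have hD0 : 0 < D := by linarith
    have e1 : D * (2 / D * RR (zz j) - B) = 2 * RR (zz j) - D * B := by
      field_simp
    have e2 := mul_le_mul_of_nonneg_left hcon hD0.le
    linarith
  have h3 : (D - 3) * hgt (zz j) + D * B - CB K m ≤ Real.log (badNorm g (tri m a b c)) := by
    linarith
  have h4 := mul_le_mul_of_nonneg_left h3 hk0.le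
  have e5 : (κ - w) * (D - 3) = w := by
    rw [hD]
    field_simp
    ring
  have e6 : (κ - w) * B = |CC K g m - c₀ + (κ - w) * CB K m| := by
    rw [hB]
    field_simp
  have e7 : (κ - w) * (D * B) ≥ |CC K g m - c₀ + (κ - w) * CB K m| := by
    rw [← e6]
    have : B ≤ D * B := by nlinarith
    exact mul_le_mul_of_nonneg_left this hk0.le
  have e8 := le_abs_self (CC K g m - c₀ + (κ - w) * CB K m)
  have e9 : (κ - w) * ((D - 3) * hgt (zz j) + D * B - CB K m) =
      ((κ - w) * (D - 3)) * hgt (zz j) + (κ - w) * (D * B) - (κ - w) * CB K m := by ring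
  rw [e9, e5] at h4
  linarith

end Pool.Agent.Q19.TR
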