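import Pool.Agent.Q19.TR.Tri
import Pool.Agent.W318.GlobalSzp
import Pool.Agent.Q19.JL.Fin

/-!
# The exponents of the minimal discriminants of the trinomial curves `y ^ 2 = a x ^ n + b x + c`
-/

set_option autoImplicit false

namespace Pool.Agent.Q19.TR

open Polynomial NumberField IsDedekindDomain Pool.Agent.H691R3
open Pool.Agent.TH876.Loc (Pr)
open Pool.Agent.W318 (Eqv IsHyp GoodForm discN minExp act IsModel modelDisc)
open Pool.Agent.Y733.FF (val_exp fv_exp fv_one_iff fv_le_one_iff)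

variable {K : Type} [Field K] [NumberField K]

theorem exists_val (v : Pr K) {x : K} (hx : x ≠ 0) :
    ∃ a : ℤ, v.valuation K x = WithZero.exp a :=
  ⟨_, (WithZero.exp_log ((v.valuation K).ne_zero_iff.2 hx)).symm⟩

theorem fv_expZ (v : Pr K) {x : K} {a : ℤ} (h : v.valuation K x = WithZero.exp a) :
    Real.log (fv v x) = a * Real.log (Nv v) := by
  rcases le_total a 0 with ha | ha
  · obtain ⟨n, hn⟩ := Int.eq_ofNat_of_zero_le (neg_nonneg.2 ha)
    have ha' : a = -(n : ℤ) := by omega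
    rw [ha'] at h
    rw [fv_exp v h, ha']
    push_cast
    ring
  · obtain ⟨n, hn⟩ := Int.eq_ofNat_of_zero_le ha
    have h' : v.valuation K x⁻¹ = WithZero.exp (-(n : ℤ)) := by
      rw [map_inv₀, h, hn, WithZero.exp_neg]
    have h2 := fv_exp v h'
    rw [map_inv₀, Real.log_inv] at h2
    rw [hn]
    push_cast
    linarith

theorem val_of_log (v : Pr K) {x : K} (hx : x ≠ 0) {a : ℤ}
    (h : Real.log (fv v x) = a * Real.log (Nv v)) : v.valuation K x = WithZero.exp a := by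
  obtain ⟨b, hb⟩ := exists_val v hx
  have h2 := fv_expZ v hb
  rw [h] at h2
  rw [hb, Pool.Agent.Q19.JL.int_of_log v h2]

theorem fv_nat_le (v : Pr K) (n : ℕ) : Real.log (fv v (n : K)) ≤ 0 :=
  Real.log_nonpos (AbsoluteValue.nonneg _ _) (Pool.Agent.TH876.Loc.fv_natCast_le v n)

/-- the trinomial -/
noncomputable def tri (m : ℕ) (a b c : K) : K[X] := C a * X ^ (m + 1) + C b * X + C c

theorem eqv_tr {g m : ℕ} (hm : m = 2 * g ∨ m = 2 * g + 1) (hg : 2 ≤ g) {a b c : K} (ha : a ≠ 0)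
    (hb : b ≠ 0) (hc : c ≠ 0) {l : K} (hl : l ≠ 0) :
    Eqv (g + 1) (tri m a b c)
      (C (a * (c / b) ^ (m + 1) * l ^ 2) * tr (m + 1) (b ^ (m + 1) / (a * c ^ m))) := by
  have hcb : c / b ≠ 0 := div_ne_zero hc hb
  refine ⟨c / b, 0, 0, 1, l, by simpa using hcb, hl, ?_⟩
  have hdeg : (tri m a b c).natDegree ≤ g + 1 + (g + 1) := by
    unfold tri
    refine (natDegree_add_le _ _).trans (max_le ((natDegree_add_le _ _).trans (max_le
      ((natDegree_C_mul_X_pow_le _ _).trans (by omega)) ?_)) ?_)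
    · exact ((natDegree_C_mul_le _ _).trans natDegree_X_le).trans (by omega)
    · rw [natDegree_C]
      omega
  have hact : act (g + 1 + (g + 1)) (c / b) 0 0 1 (tri m a b c) =
      C (a * (c / b) ^ (m + 1)) * tr (m + 1) (b ^ (m + 1) / (a * c ^ m)) := by
    refine Pool.Agent.W318.poly_eq_of_eval (c := 0) (d := 1) (Or.inr one_ne_zero) fun x hx => ?_
    rw [Pool.Agent.W318.eval_act hdeg hx]
    unfold tri tr
    simp only [eval_add, eval_mul, eval_C, eval_pow, eval_X, zero_mul, zero_add, one_pow, one_mul,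
      add_zero, div_one]
    have hcm : c ^ m ≠ 0 := pow_ne_zero _ hc
    have hbm : b ^ (m + 1) ≠ 0 := pow_ne_zero _ hb
    have e1 : a * (c / b) ^ (m + 1) * (b ^ (m + 1) / (a * c ^ m)) = c := by
      rw [div_pow, pow_succ c m]
      field_simp
    have e2 : b * (c / b * x) = c * x := by field_simp
    rw [e2, mul_pow]
    linear_combination (-(x + 1)) * e1
  rw [hact, ← mul_assoc, ← C_mul]
  congr 2
  ring

theorem tri_deg {m : ℕ} (hm : 1 ≤ m) {a : K} (ha : a ≠ 0) (b c : K) :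
    (tri m a b c).natDegree = m + 1 := by
  unfold tri
  have h1 : (C b * X + C c : K[X]).natDegree ≤ 1 := natDegree_linear_le
  rw [add_assoc, natDegree_add_eq_left_of_natDegree_lt, natDegree_C_mul_X_pow _ _ ha]
  rw [natDegree_C_mul_X_pow _ _ ha]
  omega

/-- the invariant -/
def IsInv (m : ℕ) (s a b c : K) : Prop :=
  (m : K) ^ m * b ^ (m + 1) = (-1) ^ (m + 1) * ((m + 1 : ℕ) : K) ^ (m + 1) * s * (a * c ^ m)

theorem inv_t {m : ℕ} {s a b c : K} (ha : a ≠ 0) (hc : c ≠ 0) (h : IsInv m s a b c) :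
    (m : K) ^ m * (b ^ (m + 1) / (a * c ^ m)) =
      (-1) ^ (m + 1) * ((m + 1 : ℕ) : K) ^ (m + 1) * s := by
  unfold IsInv at h
  have : a * c ^ m ≠ 0 := mul_ne_zero ha (pow_ne_zero _ hc)
  rw [← mul_div_assoc, h, mul_div_assoc, div_self this, mul_one]

theorem good_tr {g m : ℕ} (hm : m = 2 * g ∨ m = 2 * g + 1) (hg : 2 ≤ g) {t s d : K} (ht : t ≠ 0)
    (h1 : s ≠ 1) (hs : (m : K) ^ m * t = (-1) ^ (m + 1) * ((m + 1 : ℕ) : K) ^ (m + 1) * s)
    (hd : d ≠ 0) : GoodForm (g + 1) (C d * tr (m + 1) t) := by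
  have hu : IsUnit (C d : K[X]) := isUnit_C.mpr (isUnit_iff_ne_zero.mpr hd)
  refine ⟨?_, ?_⟩
  · exact (associated_unit_mul_left _ _ hu).squarefree_iff.2 (tr_sqfree (by omega) ht h1 hs)
  · rw [natDegree_C_mul hd, tr_deg (by omega)]
    omega

theorem hyp_tri {g m : ℕ} (hm : m = 2 * g ∨ m = 2 * g + 1) (hg : 2 ≤ g) {s a b c : K} (ha : a ≠ 0)
    (hb : b ≠ 0) (hc : c ≠ 0) (h1 : s ≠ 1) (h : IsInv m s a b c) : IsHyp g (tri m a b c) := by
  have he := eqv_tr hm hg ha hb hc (one_ne_zero (α := K))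
  have ht : b ^ (m + 1) / (a * c ^ m) ≠ 0 :=
    div_ne_zero (pow_ne_zero _ hb) (mul_ne_zero ha (pow_ne_zero _ hc))
  have hd : a * (c / b) ^ (m + 1) * 1 ^ 2 ≠ 0 :=
    mul_ne_zero (mul_ne_zero ha (pow_ne_zero _ (div_ne_zero hc hb))) (by simp)
  have hgood := good_tr hm hg ht h1 (inv_t ha hc h) hd
  have hdeg := tri_deg (by omega : 1 ≤ m) ha b c
  have := Eqv.good (by omega) hgood (he.symm (by rw [hdeg]; omega))
  refine ⟨this.1, ?_⟩
  rw [hdeg]
  omega

theorem discN_monic {N : ℕ} {F : K[X]} (hF : F.Monic) : discN N F = F.discr := by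
  unfold discN
  split_ifs
  · rfl
  · rw [hF.leadingCoeff]; ring

end Pool.Agent.Q19.TR
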