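import Pool.Agent.Q19.TR.Local

/-!
# The exponents of the minimal discriminants of the trinomial curves: bounds at one prime
-/

set_option autoImplicit false

namespace Pool.Agent.Q19.TR

open Polynomial NumberField IsDedekindDomain Pool.Agent.H691R3
open Pool.Agent.TH876.Loc (Pr)
open Pool.Agent.W318 (Eqv IsHyp GoodForm discN minExp act IsModel modelDisc minExp_le
  exists_min_model bridge modelDisc_eq four_mul_form discN_C_mul)
open Pool.Agent.Y733.FF (val_exp fv_exp fv_one_iff fv_le_one_iff)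

variable {K : Type} [Field K] [NumberField K]

theorem val_tr_coeff (v : Pr K) {n : ℕ} {t : K} (i : ℕ) :
    v.valuation K ((tr n t).coeff i) ≤ max 1 (v.valuation K t) := by
  unfold tr
  rw [coeff_add, coeff_add, coeff_X_pow, coeff_C_mul, coeff_X, coeff_C]
  refine (Valuation.map_add _ _ _).trans (max_le ?_ ((Valuation.map_add _ _ _).trans
    (max_le ?_ ?_)))
  · split_ifs
    · rw [map_one]; exact le_max_left _ _
    · rw [map_zero]; exact zero_le
  · split_ifs
    · rw [mul_one]; exact le_max_right _ _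
    · rw [mul_zero, map_zero]; exact zero_le
  · split_ifs
    · exact le_max_right _ _
    · rw [map_zero]; exact zero_le

/-- the valuation of the discriminant -/
theorem log_discr (v : Pr K) {m : ℕ} (hm : 1 ≤ m) {t s : K} (ht : t ≠ 0) (h1 : s ≠ 1)
    (hs : (m : K) ^ m * t = (-1) ^ (m + 1) * ((m + 1 : ℕ) : K) ^ (m + 1) * s) :
    Real.log (fv v (tr (m + 1) t).discr) = (m + 1 : ℕ) * Real.log (fv v ((m + 1 : ℕ) : K)) +
      m * Real.log (fv v t) + Real.log (fv v (1 - s)) := by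
  obtain ⟨e, he⟩ := tr_discr' hm ht hs
  have hn0 : ((m + 1 : ℕ) : K) ≠ 0 := Nat.cast_ne_zero.2 (by omega)
  have p1 : fv v ((m + 1 : ℕ) : K) ≠ 0 := ((fv v).pos hn0).ne'
  have p2 : fv v t ≠ 0 := ((fv v).pos ht).ne'
  have p3 : fv v (1 - s) ≠ 0 := ((fv v).pos (sub_ne_zero.2 (Ne.symm h1))).ne'
  rw [he, map_mul, map_pow, (fv v).map_neg, map_one, one_pow, one_mul, map_mul, map_mul, map_pow,
    map_pow, Real.log_mul (mul_ne_zero (pow_ne_zero _ p1) (pow_ne_zero _ p2)) p3,
    Real.log_mul (pow_ne_zero _ p1) (pow_ne_zero _ p2), Real.log_pow, Real.log_pow]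

theorem log_t (v : Pr K) {m : ℕ} (hm : 1 ≤ m) {t s : K} (ht : t ≠ 0) (h0 : s ≠ 0)
    (hs : (m : K) ^ m * t = (-1) ^ (m + 1) * ((m + 1 : ℕ) : K) ^ (m + 1) * s) :
    Real.log (fv v t) = (m + 1 : ℕ) * Real.log (fv v ((m + 1 : ℕ) : K)) + Real.log (fv v s) -
      m * Real.log (fv v (m : K)) := by
  have hn0 : ((m + 1 : ℕ) : K) ≠ 0 := Nat.cast_ne_zero.2 (by omega)
  have hm0 : (m : K) ≠ 0 := Nat.cast_ne_zero.2 (by omega)
  have p1 : fv v ((m + 1 : ℕ) : K) ≠ 0 := ((fv v).pos hn0).ne'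
  have p2 : fv v t ≠ 0 := ((fv v).pos ht).ne'
  have p3 : fv v (m : K) ≠ 0 := ((fv v).pos hm0).ne'
  have p4 : fv v s ≠ 0 := ((fv v).pos h0).ne'
  have h : Real.log (fv v ((m : K) ^ m * t)) = Real.log (fv v
      ((-1) ^ (m + 1) * ((m + 1 : ℕ) : K) ^ (m + 1) * s)) := by rw [hs]
  rw [map_mul, map_pow, map_mul, map_mul, map_pow, (fv v).map_neg, map_one, one_pow, one_mul,
    map_pow, Real.log_mul (pow_ne_zero _ p3) p2, Real.log_mul (pow_ne_zero _ p1) p4,
    Real.log_pow, Real.log_pow] at h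
  linarith

/-- the constant at `v` -/
noncomputable def cst (g m : ℕ) (v : Pr K) : ℝ :=
  4 * g * (-Real.log (fv v ((2 : ℕ) : K))) + (4 * g + 2) * (m * (-Real.log (fv v (m : K)))) +
    (m + 1) * (m + 1) * (-Real.log (fv v ((m + 1 : ℕ) : K)))

theorem cst_nonneg (g m : ℕ) (v : Pr K) : 0 ≤ cst g m v := by
  unfold cst
  have h1 := fv_nat_le v 2
  have h2 := fv_nat_le v m
  have h3 := fv_nat_le v (m + 1)
  have e1 : 0 ≤ -Real.log (fv v ((2 : ℕ) : K)) := by linarith
  have e2 : 0 ≤ -Real.log (fv v (m : K)) := by linarith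
  have e3 : 0 ≤ -Real.log (fv v ((m + 1 : ℕ) : K)) := by linarith
  positivity

theorem exists_unif (v : Pr K) : ∃ ϖ : K, ϖ ≠ 0 ∧ v.valuation K ϖ = WithZero.exp (-1 : ℤ) := by
  obtain ⟨ϖ, hϖ⟩ := v.valuation_exists_uniformizer K
  refine ⟨ϖ, ?_, hϖ⟩
  rintro rfl
  rw [map_zero] at hϖ
  exact WithZero.exp_ne_zero hϖ.symm

open Classical in
/-- the upper bound -/
theorem loc_up {g m : ℕ} (hm : m = 2 * g ∨ m = 2 * g + 1) (hg : 2 ≤ g) {s a b c : K} (ha : a ≠ 0)
    (hb : b ≠ 0) (hc : c ≠ 0) (h0 : s ≠ 0) (h1 : s ≠ 1) (h : IsInv m s a b c) (v : Pr K) :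
    (minExp g (tri m a b c) v : ℝ) * Real.log (Nv v) ≤
      (4 * g + 2) * (if minExp g (tri m a b c) v = 0 then 0 else Real.log (Nv v)) + cst g m v +
        (4 * g + 2) * Real.log (max 1 (fv v s)) - m * Real.log (fv v s) -
          Real.log (fv v (1 - s)) := by
  have hl := log_Nv_pos v
  have hF := hyp_tri hm hg ha hb hc h1 h
  have hm1 : 1 ≤ m := by omega
  set t := b ^ (m + 1) / (a * c ^ m) with htdef
  have ht : t ≠ 0 := div_ne_zero (pow_ne_zero _ hb) (mul_ne_zero ha (pow_ne_zero _ hc))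
  have hs := inv_t ha hc h
  rw [← htdef] at hs
  have hLm : 0 ≤ Real.log (max 1 (fv v s)) := Real.log_nonneg (le_max_left _ _)
  have hLs : Real.log (fv v s) ≤ Real.log (max 1 (fv v s)) :=
    Real.log_le_log ((fv v).pos h0) (le_max_right _ _)
  have hL1 : Real.log (fv v (1 - s)) ≤ Real.log (max 1 (fv v s)) := by
    refine Real.log_le_log ((fv v).pos (sub_ne_zero.2 (Ne.symm h1))) ?_
    have := Pool.Agent.Q19.JL.na_sub v 1 s
    rwa [map_one] at this
  have hm2 : (m : ℝ) ≤ 4 * g + 1 := by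
    have : m ≤ 4 * g + 1 := by omega
    exact_mod_cast this
  split_ifs with hz
  · rw [hz, Nat.cast_zero, zero_mul, mul_zero, zero_add]
    have := cst_nonneg g m v
    have e1 : (m : ℝ) * Real.log (fv v s) ≤ m * Real.log (max 1 (fv v s)) :=
      mul_le_mul_of_nonneg_left hLs (Nat.cast_nonneg _)
    nlinarith
  · set d := a * (c / b) ^ (m + 1) with hd
    have hd0 : d ≠ 0 := mul_ne_zero ha (pow_ne_zero _ (div_ne_zero hc hb))
    obtain ⟨δ, hδ⟩ := exists_val v hd0
    obtain ⟨τ, hτ⟩ := exists_val v ht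
    obtain ⟨ϖ, hϖ0, hϖ⟩ := exists_unif v
    set e : ℕ := τ.toNat with he
    -- the exponent of the twist
    set j : ℤ := (δ + e + 1) / 2 with hj
    have hr : 0 ≤ 2 * j - δ - e ∧ 2 * j - δ - e ≤ 1 := by omega
    obtain ⟨r, hr1⟩ := Int.eq_ofNat_of_zero_le hr.1
    have hr2 : r ≤ 1 := by omega
    have hl0 : ϖ ^ j ≠ 0 := zpow_ne_zero _ hϖ0
    have he' := eqv_tr hm hg ha hb hc hl0
    rw [← htdef, ← hd] at he'
    have hdv : v.valuation K (d * (ϖ ^ j) ^ 2) = WithZero.exp (-((e + r : ℕ) : ℤ)) := by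
      rw [map_mul, map_pow, map_zpow₀, hδ, hϖ, ← WithZero.exp_zsmul, ← WithZero.exp_nsmul,
        ← WithZero.exp_add]
      congr 1
      simp only [smul_eq_mul, nsmul_eq_mul]
      push_cast
      omega
    have hdl : d * (ϖ ^ j) ^ 2 ≠ 0 := mul_ne_zero hd0 (pow_ne_zero _ hl0)
    have hint : ∀ i, v.valuation K ((C (d * (ϖ ^ j) ^ 2) * tr (m + 1) t).coeff i) ≤ 1 := by
      intro i
      rw [coeff_C_mul, map_mul, hdv]
      have h3 : v.valuation K ((tr (m + 1) t).coeff i) ≤ WithZero.exp ((e : ℕ) : ℤ) := by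
        refine (val_tr_coeff v i).trans (max_le ?_ ?_)
        · rw [← WithZero.exp_zero]
          exact WithZero.exp_le_exp.2 (by omega)
        · rw [hτ]
          exact WithZero.exp_le_exp.2 (by omega)
      refine (mul_le_mul' le_rfl h3).trans ?_
      rw [← WithZero.exp_add, ← WithZero.exp_zero]
      exact WithZero.exp_le_exp.2 (by push_cast; omega)
    obtain ⟨t₂, ht₂⟩ := Pool.Agent.W318.exists_two_exp v
    obtain ⟨k, hk, -, hle⟩ := minExp_le hF v he' hint ht₂
    have hk2 := fv_exp v hk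
    have ht3 := fv_exp v ht₂
    have hdd := fv_exp v hdv
    have hgood : (tr (m + 1) t).natDegree = g + 1 + (g + 1) ∨
        (tr (m + 1) t).natDegree + 1 = g + 1 + (g + 1) := by
      rw [tr_deg (by omega)]
      omega
    rw [discN_C_mul (by omega) hdl hgood, discN_monic (tr_monic (by omega) t), map_mul, map_pow,
      Real.log_mul (pow_ne_zero _ ((fv v).pos hdl).ne') (by
        obtain ⟨e1, he1⟩ := tr_discr' hm1 ht hs
        refine ((fv v).pos ?_).ne'
        rw [he1]
        exact mul_ne_zero (pow_ne_zero _ (by simp)) (mul_ne_zero (mul_ne_zero (pow_ne_zero _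
          (Nat.cast_ne_zero.2 (by omega))) (pow_ne_zero _ ht)) (sub_ne_zero.2 (Ne.symm h1)))),
      Real.log_pow, log_discr v hm1 ht h1 hs, hdd] at hk2
    have hN : ((2 * (g + 1 + (g + 1) - 1) : ℕ) : ℝ) = 4 * g + 2 := by
      have : 2 * (g + 1 + (g + 1) - 1) = 4 * g + 2 := by omega
      rw [this]
      push_cast
      ring
    rw [hN] at hk2
    have hτ2 := fv_expZ v hτ
    have hlt := log_t v hm1 ht h0 hs
    have n1 := fv_nat_le v m
    have n2 := fv_nat_le v (m + 1)
    have n3 := fv_nat_le v 2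
    have hmpos : (0 : ℝ) ≤ m := Nat.cast_nonneg _
    -- `e log N ≤ log max (1, |s|) - m log |m|`
    have hee : (e : ℝ) * Real.log (Nv v) ≤
        Real.log (max 1 (fv v s)) + m * (-Real.log (fv v (m : K))) := by
      have e3 : 0 ≤ m * (-Real.log (fv v (m : K))) := mul_nonneg hmpos (by linarith)
      rcases le_total τ 0 with hτ0 | hτ0
      · have : e = 0 := by omega
        rw [this, Nat.cast_zero, zero_mul]
        linarith
      · have : (e : ℝ) = τ := by
          have : (e : ℤ) = τ := by omega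
          exact_mod_cast this
        rw [this, ← hτ2, hlt]
        have e4 : ((m + 1 : ℕ) : ℝ) * Real.log (fv v ((m + 1 : ℕ) : K)) ≤ 0 :=
          mul_nonpos_of_nonneg_of_nonpos (Nat.cast_nonneg _) n2
        linarith
    have hle' : (minExp g (tri m a b c) v : ℝ) ≤ 4 * g * t₂ + k := by exact_mod_cast hle
    have hle2 : (minExp g (tri m a b c) v : ℝ) * Real.log (Nv v) ≤
        4 * g * (t₂ * Real.log (Nv v)) + k * Real.log (Nv v) := by
      have := mul_le_mul_of_nonneg_right hle' hl.le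
      linarith
    have hr3 : (r : ℝ) * Real.log (Nv v) ≤ Real.log (Nv v) := by
      have : (r : ℝ) ≤ 1 := by exact_mod_cast hr2
      nlinarith
    have ht4 : (t₂ : ℝ) * Real.log (Nv v) = -Real.log (fv v ((2 : ℕ) : K)) := by
      push_cast
      linarith
    have hg0 : (0 : ℝ) ≤ 4 * g + 2 := by positivity
    have f1 := mul_le_mul_of_nonneg_left hee hg0
    have f2 := mul_le_mul_of_nonneg_left hr3 hg0
    have f3 : (m : ℝ) * (m * Real.log (fv v (m : K))) ≤ 0 :=
      mul_nonpos_of_nonneg_of_nonpos hmpos (mul_nonpos_of_nonneg_of_nonpos hmpos n1)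
    rw [hlt] at hk2
    rw [ht4] at hle2
    unfold cst
    push_cast at hk2 ⊢
    nlinarith

end Pool.Agent.Q19.TR
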