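import Pool.Agent.Q19.TR.Local2

/-!
# The trinomial curves have bad reduction at the simple zeros and poles
-/

set_option autoImplicit false

namespace Pool.Agent.Q19.TR

open Polynomial NumberField IsDedekindDomain Pool.Agent.H691R3
open Pool.Agent.TH876.Loc (Pr)
open Pool.Agent.W318 (Eqv IsHyp GoodForm discN minExp act IsModel modelDisc minExp_le
  exists_min_model bridge modelDisc_eq four_mul_form discN_C_mul)
open Pool.Agent.Y733.FF (val_exp fv_exp fv_one_iff fv_le_one_iff)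

variable {K : Type} [Field K] [NumberField K]

/-- the minimal exponent, at a prime not above two, in terms of an integral form -/
theorem min_form {g : ℕ} (hg : 2 ≤ g) {F : K[X]} (hF : IsHyp g F) (v : Pr K)
    (h2 : v.valuation K (2 : K) = 1) : ∃ G : K[X], Eqv (g + 1) F G ∧
      (∀ i, v.valuation K (G.coeff i) ≤ 1) ∧
      v.valuation K (discN (g + 1 + (g + 1)) G) = WithZero.exp (-((minExp g F v : ℕ) : ℤ)) := by
  obtain ⟨f, f₂, hM, hn⟩ := exists_min_model hF v
  obtain ⟨φ⟩ := hM.iso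
  have hbr := bridge hg hF.1 hF.2 hM.upper φ
  have hgood' : GoodForm (g + 1) (4 * f + f₂ ^ 2) :=
    Eqv.good (by omega) (Pool.Agent.W318.IsHyp.good hF) hbr
  refine ⟨4 * f + f₂ ^ 2, hbr, Pool.Agent.W318.int_comb v hM.int hM.int₂, ?_⟩
  have h4 : (1 / 4 : K) ≠ 0 := by norm_num
  have h5 : v.valuation K (1 / 4 : K) = 1 := by
    have : (1 / 4 : K) = (2 * 2)⁻¹ := by norm_num
    rw [this, map_inv₀, map_mul, h2]
    norm_num
  rw [modelDisc_eq, four_mul_form, discN_C_mul (by omega) h4 hgood'.2, map_mul, map_mul,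
    map_pow, map_pow, h2, h5, one_pow, one_pow, one_mul, one_mul] at hn
  exact hn

/-- the valuations of the discriminants of equivalent forms -/
theorem disc_eqv {g : ℕ} (hg : 2 ≤ g) {F G : K[X]} (hF : GoodForm (g + 1) F)
    (he : Eqv (g + 1) F G) (v : Pr K) {q : ℤ}
    (hq : v.valuation K (discN (g + 1 + (g + 1)) F) = WithZero.exp q) :
    ∃ z : ℤ, v.valuation K (discN (g + 1 + (g + 1)) G) =
      WithZero.exp ((4 * g + 2 : ℕ) * z + q) := by
  obtain ⟨a, b, c, d, l, hdet, hl, rfl⟩ := he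
  have hy : l ^ 2 * (a * d - b * c) ^ (g + 1) ≠ 0 :=
    mul_ne_zero (pow_ne_zero _ hl) (pow_ne_zero _ hdet)
  obtain ⟨z, hz⟩ := exists_val v hy
  refine ⟨z, ?_⟩
  rw [Pool.Agent.Y678.SZ.disc_act_val (by omega) hF v hdet hl, map_mul, map_pow, hz, hq,
    ← WithZero.exp_nsmul, ← WithZero.exp_add]
  congr 1
  have : 2 * (g + 1 + (g + 1) - 1) = 4 * g + 2 := by omega
  rw [this, nsmul_eq_mul]

/-- bad reduction when the exponent of the discriminant is not a multiple of `4 g + 2` -/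
theorem bad_of_mod {g : ℕ} (hg : 2 ≤ g) {F G : K[X]} (hF : IsHyp g F) (he : Eqv (g + 1) F G)
    (v : Pr K) (h2 : v.valuation K (2 : K) = 1) {q : ℤ}
    (hq : v.valuation K (discN (g + 1 + (g + 1)) G) = WithZero.exp q)
    (hnd : ¬ ((4 * g + 2 : ℕ) : ℤ) ∣ q) : minExp g F v ≠ 0 := by
  intro h0
  obtain ⟨H, h3, -, h4⟩ := min_form hg hF v h2
  have hFd : F.natDegree ≤ g + 1 + (g + 1) := by have := hF.2; omega
  have hGH : Eqv (g + 1) G H := (he.symm hFd).trans (he.natDegree_le) h3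
  have hG : GoodForm (g + 1) G := Eqv.good (by omega) (Pool.Agent.W318.IsHyp.good hF) he
  obtain ⟨z, hz⟩ := disc_eqv hg hG hGH v hq
  rw [h4, h0] at hz
  have := WithZero.exp_injective hz
  apply hnd
  refine ⟨-z, ?_⟩
  push_cast at this ⊢
  linarith

/-- bad reduction at the simple zeros and poles -/
theorem bad_simple {g m : ℕ} (hm : m = 2 * g ∨ m = 2 * g + 1) (hg : 2 ≤ g) {s a b c : K}
    (ha : a ≠ 0) (hb : b ≠ 0) (hc : c ≠ 0) (h0 : s ≠ 0) (h1 : s ≠ 1) (h : IsInv m s a b c)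
    (v : Pr K) (h2 : v.valuation K (2 : K) = 1) (hvm : fv v (m : K) = 1)
    (hvn : fv v ((m + 1 : ℕ) : K) = 1) {p q : ℤ} (hp : Real.log (fv v s) = p * Real.log (Nv v))
    (hq : Real.log (fv v (1 - s)) = q * Real.log (Nv v))
    (hpq : (p = 0 ∧ q = -1) ∨ (p = -1 ∧ q = 0) ∨ (p = 1 ∧ q = 1)) :
    minExp g (tri m a b c) v ≠ 0 := by
  have hm1 : 1 ≤ m := by omega
  have hF := hyp_tri hm hg ha hb hc h1 h
  set t := b ^ (m + 1) / (a * c ^ m) with htdef
  have ht : t ≠ 0 := div_ne_zero (pow_ne_zero _ hb) (mul_ne_zero ha (pow_ne_zero _ hc))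
  have hs := inv_t ha hc h
  rw [← htdef] at hs
  have he := eqv_tr hm hg ha hb hc (one_ne_zero (α := K))
  rw [← htdef] at he
  set d := a * (c / b) ^ (m + 1) * 1 ^ 2 with hd
  have hd0 : d ≠ 0 :=
    mul_ne_zero (mul_ne_zero ha (pow_ne_zero _ (div_ne_zero hc hb))) (by simp)
  obtain ⟨δ, hδ⟩ := exists_val v hd0
  have hgood : (tr (m + 1) t).natDegree = g + 1 + (g + 1) ∨
      (tr (m + 1) t).natDegree + 1 = g + 1 + (g + 1) := by
    rw [tr_deg (by omega)]
    omega
  have hDne : (tr (m + 1) t).discr ≠ 0 := by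
    obtain ⟨e1, he1⟩ := tr_discr' hm1 ht hs
    rw [he1]
    exact mul_ne_zero (pow_ne_zero _ (by simp)) (mul_ne_zero (mul_ne_zero (pow_ne_zero _
      (Nat.cast_ne_zero.2 (by omega))) (pow_ne_zero _ ht)) (sub_ne_zero.2 (Ne.symm h1)))
  have hD : v.valuation K (tr (m + 1) t).discr = WithZero.exp (m * p + q) := by
    refine val_of_log v hDne ?_
    rw [log_discr v hm1 ht h1 hs, log_t v hm1 ht h0 hs, hvm, hvn, Real.log_one, hp, hq]
    push_cast
    ring
  have hG : v.valuation K (discN (g + 1 + (g + 1)) (C d * tr (m + 1) t)) =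
      WithZero.exp ((4 * g + 2 : ℕ) * δ + (m * p + q)) := by
    rw [discN_C_mul (by omega) hd0 hgood, discN_monic (tr_monic (by omega) t), map_mul, map_pow,
      hδ, hD, ← WithZero.exp_nsmul, ← WithZero.exp_add]
    congr 1
    have : 2 * (g + 1 + (g + 1) - 1) = 4 * g + 2 := by omega
    rw [this, nsmul_eq_mul]
  refine bad_of_mod hg hF he v h2 hG ?_
  rintro ⟨z, hz⟩
  have hz' : (m : ℤ) * p + q = ((4 * g + 2 : ℕ) : ℤ) * (z - δ) := by linarith
  have key : ∀ w y : ℤ, 0 < w → w < ((4 * g + 2 : ℕ) : ℤ) → w = ((4 * g + 2 : ℕ) : ℤ) * y →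
      False := by
    intro w y hw1 hw2 hw
    rcases lt_trichotomy y 0 with hy | hy | hy
    · nlinarith
    · rw [hy, mul_zero] at hw
      omega
    · nlinarith
  rcases hpq with ⟨rfl, rfl⟩ | ⟨rfl, rfl⟩ | ⟨rfl, rfl⟩
  · exact key 1 (-(z - δ)) one_pos (by push_cast; omega) (by linarith)
  · exact key m (-(z - δ)) (by omega) (by push_cast; omega) (by linarith)
  · exact key (m + 1) (z - δ) (by omega) (by push_cast; omega) (by linarith)

end Pool.Agent.Q19.TR
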