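import Pool.Agent.Q19.TR.Local3

/-!
# Twisted forms: a lower bound for the exponent of the minimal discriminant
-/

set_option autoImplicit false

namespace Pool.Agent.Q19.TR

open Polynomial NumberField IsDedekindDomain Pool.Agent.H691R3
open Pool.Agent.TH876.Loc (Pr)
open Pool.Agent.W318 (Eqv IsHyp GoodForm discN minExp act act_C_mul act_act act_one act_scalar)
open Pool.Agent.Y733.FF (val_exp fv_exp fv_one_iff fv_le_one_iff)

variable {K : Type} [Field K] [NumberField K]

/-- the coefficients are integral -/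
def IntP (v : Pr K) (F : K[X]) : Prop := ∀ i, v.valuation K (F.coeff i) ≤ 1

theorem IntP.mul {v : Pr K} {F G : K[X]} (hF : IntP v F) (hG : IntP v G) : IntP v (F * G) := by
  intro i
  rw [coeff_mul]
  refine Valuation.map_sum_le _ fun x _ => ?_
  rw [map_mul]
  exact mul_le_one' (hF _) (hG _)

theorem IntP.C {v : Pr K} {a : K} (ha : v.valuation K a ≤ 1) : IntP v (Polynomial.C a) := by
  intro i
  rw [coeff_C]
  split_ifs
  · exact ha
  · rw [map_zero]; exact zero_le

theorem IntP.one (v : Pr K) : IntP v (1 : K[X]) := by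
  rw [← C_1]
  exact IntP.C (by rw [map_one])

theorem IntP.pow {v : Pr K} {F : K[X]} (hF : IntP v F) (n : ℕ) : IntP v (F ^ n) := by
  induction n with
  | zero => rw [pow_zero]; exact IntP.one v
  | succ n ih => rw [pow_succ]; exact ih.mul hF

theorem IntP.lin {v : Pr K} {a b : K} (ha : v.valuation K a ≤ 1) (hb : v.valuation K b ≤ 1) :
    IntP v (Polynomial.C a * X + Polynomial.C b) := by
  intro i
  rw [coeff_add, coeff_C_mul, coeff_X, coeff_C]
  refine (Valuation.map_add _ _ _).trans (max_le ?_ ?_)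
  · split_ifs
    · rw [mul_one]; exact ha
    · rw [mul_zero, map_zero]; exact zero_le
  · split_ifs
    · exact hb
    · rw [map_zero]; exact zero_le

theorem IntP.act {v : Pr K} {F : K[X]} (hF : IntP v F) (n : ℕ) {a b c d : K}
    (ha : v.valuation K a ≤ 1) (hb : v.valuation K b ≤ 1) (hc : v.valuation K c ≤ 1)
    (hd : v.valuation K d ≤ 1) : IntP v (Pool.Agent.W318.act n a b c d F) := by
  intro j
  unfold Pool.Agent.W318.act
  rw [finsetSum_coeff]
  exact Valuation.map_sum_le _ fun i _ =>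
    (((IntP.C (hF i)).mul ((IntP.lin ha hb).pow i)).mul ((IntP.lin hc hd).pow (n - i))) j

/-- the value of the form -/
def P0 (m ρ : ℕ) (α β γ b d : K) : K :=
  α * b ^ (m + 1) * d ^ ρ + β * b * d ^ (m + ρ) + γ * d ^ (m + 1 + ρ)

/-- the first derivative of the form -/
def Px (m ρ : ℕ) (α β b d : K) : K :=
  α * (m + 1) * b ^ m * d ^ ρ + β * d ^ (m + ρ)

/-- the second derivative of the form -/
def Pz (m ρ : ℕ) (α β γ b d : K) : K :=
  ρ * α * b ^ (m + 1) + β * (m + ρ) * b * d ^ (m + ρ - 1) + γ * (m + 1 + ρ) * d ^ (m + ρ)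

theorem euler {m ρ : ℕ} (hm : 1 ≤ m) (hρ : ρ = 0 ∨ ρ = 1) (α β γ b d : K) :
    b * Px m ρ α β b d + d * Pz m ρ α β γ b d = (m + 1 + ρ) * P0 m ρ α β γ b d := by
  obtain ⟨k, rfl⟩ : ∃ k, m = k + 1 := ⟨m - 1, by omega⟩
  unfold Px Pz P0
  rcases hρ with rfl | rfl
  · have e : k + 1 + 0 - 1 = k := by omega
    rw [e]
    push_cast
    ring
  · have e : k + 1 + 1 - 1 = k + 1 := by omega
    rw [e]
    push_cast
    ring

theorem act_tri {m ρ : ℕ} (α β γ a b c d : K) :
    act (m + 1 + ρ) a b c d (tri m α β γ) = C α * ((C a * X + C b) ^ (m + 1) *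
      (C c * X + C d) ^ ρ) + C β * ((C a * X + C b) * (C c * X + C d) ^ (m + ρ)) +
        C γ * (C c * X + C d) ^ (m + 1 + ρ) := by
  have h1 := Pool.Agent.Y678.SZ.act_X_pow (m + 1 + ρ) a b c d (i := m + 1) (by omega)
  have h2 := Pool.Agent.Y678.SZ.act_X_pow (m + 1 + ρ) a b c d (i := 1) (by omega)
  have h3 := Pool.Agent.Y678.SZ.act_X_pow (m + 1 + ρ) a b c d (i := 0) (by omega)
  rw [show m + 1 + ρ - (m + 1) = ρ by omega] at h1
  rw [show m + 1 + ρ - 1 = m + ρ by omega, pow_one, pow_one] at h2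
  rw [pow_zero, pow_zero, one_mul, Nat.sub_zero] at h3
  unfold tri
  rw [Pool.Agent.Y678.SZ.act_add, Pool.Agent.Y678.SZ.act_add, act_C_mul, act_C_mul, h1, h2]
  congr 1
  conv_lhs => rw [← mul_one (C γ)]
  rw [act_C_mul, h3]

theorem act_coeff0 {m ρ : ℕ} (α β γ a b c d : K) :
    (act (m + 1 + ρ) a b c d (tri m α β γ)).coeff 0 = P0 m ρ α β γ b d := by
  rw [act_tri, coeff_zero_eq_eval_zero]
  unfold P0
  simp only [eval_add, eval_mul, eval_C, eval_pow, eval_X]
  ring

theorem act_coeff1 {m ρ : ℕ} (hm : 1 ≤ m) (hρ : ρ = 0 ∨ ρ = 1) (α β γ a b c d : K) :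
    (act (m + 1 + ρ) a b c d (tri m α β γ)).coeff 1 =
      a * Px m ρ α β b d + c * Pz m ρ α β γ b d := by
  have h := coeff_derivative (act (m + 1 + ρ) a b c d (tri m α β γ)) 0
  rw [Nat.cast_zero, zero_add, zero_add, mul_one] at h
  rw [← h, act_tri, coeff_zero_eq_eval_zero]
  obtain ⟨k, rfl⟩ : ∃ k, m = k + 1 := ⟨m - 1, by omega⟩
  unfold Px Pz
  simp only [derivative_add, derivative_mul, derivative_C, derivative_pow, derivative_X, eval_add,
    eval_mul, eval_C, eval_pow, eval_X, zero_mul, mul_zero, zero_add, add_zero, mul_one]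
  rcases hρ with rfl | rfl
  · have e : k + 1 + 0 - 1 = k := by omega
    have e2 : k + 1 + 1 + 0 - 1 = k + 1 := by omega
    rw [e, e2]
    push_cast
    ring
  · have e : k + 1 + 1 - 1 = k + 1 := by omega
    have e2 : k + 1 + 1 + 1 - 1 = k + 1 + 1 := by omega
    rw [e, e2]
    push_cast
    ring

theorem le_exp {x : WithZero (Multiplicative ℤ)} {e : ℤ} (h : WithZero.exp e * x ≤ 1) :
    x ≤ WithZero.exp (-e) := by
  have h1 := mul_le_mul' (le_refl (WithZero.exp (-e))) h
  rwa [← mul_assoc, ← WithZero.exp_add, neg_add_cancel, WithZero.exp_zero, one_mul, mul_one] at h1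

end Pool.Agent.Q19.TR
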