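import Pool.Agent.Q19.TR.Low

/-!
# Twisted forms: a lower bound for the exponent of the minimal discriminant, second part
-/

set_option autoImplicit false

namespace Pool.Agent.Q19.TR

open Polynomial NumberField IsDedekindDomain Pool.Agent.H691R3
open Pool.Agent.TH876.Loc (Pr)
open Pool.Agent.W318 (Eqv IsHyp GoodForm discN minExp act act_C_mul act_act act_one act_scalar)
open Pool.Agent.Y733.FF (val_exp fv_exp fv_one_iff fv_le_one_iff)

variable {K : Type} [Field K] [NumberField K]

/-- no point at which the form is very small -/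
def Shallow (v : Pr K) (m ρ : ℕ) (α β γ : K) : Prop :=
  ∀ b d : K, v.valuation K b ≤ 1 → v.valuation K d ≤ 1 →
    (v.valuation K b = 1 ∨ v.valuation K d = 1) →
    v.valuation K (Px m ρ α β b d) ≤ WithZero.exp (-2 : ℤ) →
    v.valuation K (Pz m ρ α β γ b d) ≤ WithZero.exp (-2 : ℤ) →
    v.valuation K (P0 m ρ α β γ b d) ≤ WithZero.exp (-3 : ℤ) → False

theorem tri_int {v : Pr K} {m : ℕ} {α β γ : K} (hα : v.valuation K α ≤ 1)
    (hβ : v.valuation K β ≤ 1) (hγ : v.valuation K γ ≤ 1) : IntP v (tri m α β γ) := by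
  intro i
  unfold tri
  rw [coeff_add, coeff_add, coeff_C_mul, coeff_C_mul, coeff_X_pow, coeff_X, coeff_C]
  refine (Valuation.map_add _ _ _).trans (max_le ((Valuation.map_add _ _ _).trans
    (max_le ?_ ?_)) ?_)
  · split_ifs
    · rw [mul_one]; exact hα
    · rw [mul_zero, map_zero]; exact zero_le
  · split_ifs
    · rw [mul_one]; exact hβ
    · rw [mul_zero, map_zero]; exact zero_le
  · split_ifs
    · exact hγ
    · rw [map_zero]; exact zero_le

theorem natDegree_tri_le {m : ℕ} (α β γ : K) : (tri m α β γ).natDegree ≤ m + 1 := by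
  unfold tri
  refine (natDegree_add_le _ _).trans (max_le ((natDegree_add_le _ _).trans (max_le
    (natDegree_C_mul_X_pow_le _ _) ?_)) ?_)
  · exact ((natDegree_C_mul_le _ _).trans natDegree_X_le).trans (by omega)
  · rw [natDegree_C]
    omega

theorem core2 {g m ρ : ℕ} (hg : 2 ≤ g) (hN : g + 1 + (g + 1) = m + 1 + ρ) (hm : 1 ≤ m)
    (hρ : ρ = 0 ∨ ρ = 1) {v : Pr K} {α β γ : K}
    (hu : v.valuation K α = 1 ∨ v.valuation K γ = 1) (hsh : Shallow v m ρ α β γ) {p : K}
    (hp : v.valuation K p = WithZero.exp (-1 : ℤ)) {a b c d l : K} (ha : v.valuation K a ≤ 1)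
    (hb : v.valuation K b ≤ 1) (hc : v.valuation K c ≤ 1) (hd : v.valuation K d ≤ 1)
    (hbd : v.valuation K b = 1 ∨ v.valuation K d = 1) (hdet : a * d - b * c ≠ 0) (hl : l ≠ 0)
    (hG : IntP v (C (l ^ 2) * act (m + 1 + ρ) a b c d (C p * tri m α β γ))) :
    v.valuation K (l ^ 2 * (a * d - b * c) ^ (g + 1)) ≤ 1 := by
  have hp0 : p ≠ 0 := by
    rintro rfl
    rw [map_zero] at hp
    exact WithZero.exp_ne_zero hp.symm
  have hD1 : v.valuation K (a * d - b * c) ≤ 1 := by
    refine (Valuation.map_sub _ _ _).trans (max_le ?_ ?_)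
    · rw [map_mul]; exact mul_le_one' ha hd
    · rw [map_mul]; exact mul_le_one' hb hc
  obtain ⟨k, hk⟩ := val_exp v hdet hD1
  obtain ⟨lam, hlam⟩ := exists_val v hl
  have hy : v.valuation K (l ^ 2 * (a * d - b * c) ^ (g + 1)) =
      WithZero.exp (2 * lam - (g + 1 : ℕ) * k) := by
    rw [map_mul, map_pow, map_pow, hk, hlam, ← WithZero.exp_nsmul, ← WithZero.exp_nsmul,
      ← WithZero.exp_add]
    congr 1
    simp only [nsmul_eq_mul]
    push_cast
    ring
  rw [hy, ← WithZero.exp_zero]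
  by_contra hcon
  rw [WithZero.exp_le_exp, not_le] at hcon
  -- the coefficients of the form are small
  have hlp : v.valuation K (l ^ 2 * p) = WithZero.exp (2 * lam - 1) := by
    rw [map_mul, map_pow, hp, hlam, ← WithZero.exp_nsmul, ← WithZero.exp_add]
    congr 1
  have hGe : C (l ^ 2) * act (m + 1 + ρ) a b c d (C p * tri m α β γ) =
      C (l ^ 2 * p) * act (m + 1 + ρ) a b c d (tri m α β γ) := by
    rw [act_C_mul, ← mul_assoc, ← C_mul]
  rw [hGe] at hG
  have hsm : ∀ i, v.valuation K ((act (m + 1 + ρ) a b c d (tri m α β γ)).coeff i) ≤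
      WithZero.exp (1 - 2 * lam) := by
    intro i
    have h1 := hG i
    rw [coeff_C_mul, map_mul, hlp] at h1
    have h2 := le_exp h1
    rwa [show -(2 * lam - 1) = 1 - 2 * lam by ring] at h2
  have hc0 := hsm 0
  have hc1 := hsm 1
  rw [act_coeff0] at hc0
  rw [act_coeff1 hm hρ] at hc1
  have hnat : v.valuation K ((m : K) + 1 + ρ) ≤ 1 := by
    have : (m : K) + 1 + ρ = ((m + 1 + ρ : ℕ) : K) := by push_cast; ring
    rw [this, ← fv_le_one_iff]
    exact Pool.Agent.TH876.Loc.fv_natCast_le v _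
  have heu : v.valuation K (b * Px m ρ α β b d + d * Pz m ρ α β γ b d) ≤
      WithZero.exp (1 - 2 * lam) := by
    rw [euler hm hρ, map_mul]
    calc _ ≤ 1 * WithZero.exp (1 - 2 * lam) := mul_le_mul' hnat hc0
      _ = _ := one_mul _
  have hdx : v.valuation K ((a * d - b * c) * Px m ρ α β b d) ≤ WithZero.exp (1 - 2 * lam) := by
    have e : (a * d - b * c) * Px m ρ α β b d =
        d * (a * Px m ρ α β b d + c * Pz m ρ α β γ b d) -
          c * (b * Px m ρ α β b d + d * Pz m ρ α β γ b d) := by ring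
    rw [e]
    refine (Valuation.map_sub _ _ _).trans (max_le ?_ ?_)
    · rw [map_mul]
      calc _ ≤ 1 * WithZero.exp (1 - 2 * lam) := mul_le_mul' hd hc1
        _ = _ := one_mul _
    · rw [map_mul]
      calc _ ≤ 1 * WithZero.exp (1 - 2 * lam) := mul_le_mul' hc heu
        _ = _ := one_mul _
  have hdz : v.valuation K ((a * d - b * c) * Pz m ρ α β γ b d) ≤ WithZero.exp (1 - 2 * lam) := by
    have e : (a * d - b * c) * Pz m ρ α β γ b d =
        a * (b * Px m ρ α β b d + d * Pz m ρ α β γ b d) -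
          b * (a * Px m ρ α β b d + c * Pz m ρ α β γ b d) := by ring
    rw [e]
    refine (Valuation.map_sub _ _ _).trans (max_le ?_ ?_)
    · rw [map_mul]
      calc _ ≤ 1 * WithZero.exp (1 - 2 * lam) := mul_le_mul' ha heu
        _ = _ := one_mul _
    · rw [map_mul]
      calc _ ≤ 1 * WithZero.exp (1 - 2 * lam) := mul_le_mul' hb hc1
        _ = _ := one_mul _
  rw [map_mul, hk] at hdx hdz
  have shift : ∀ x : WithZero (Multiplicative ℤ),
      WithZero.exp (-(k : ℤ)) * x ≤ WithZero.exp (1 - 2 * lam) →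
      x ≤ WithZero.exp (1 - 2 * lam + k) := by
    intro x hx
    have h1 := mul_le_mul' (le_refl (WithZero.exp (k : ℤ))) hx
    rwa [← mul_assoc, ← WithZero.exp_add, add_neg_cancel, WithZero.exp_zero, one_mul,
      ← WithZero.exp_add, add_comm (k : ℤ)] at h1
  rcases Nat.eq_zero_or_pos k with hk0 | hk0
  · -- the substitution is invertible
    rw [hk0] at hcon hk
    have hlam1 : 1 ≤ lam := by
      push_cast at hcon
      omega
    set D := a * d - b * c with hD
    have hDv : v.valuation K D = 1 := by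
      rw [hk]
      simp
    have hdv : ∀ x : K, v.valuation K x ≤ 1 → v.valuation K (x / D) ≤ 1 := by
      intro x hx
      rw [map_div₀, hDv, div_one]
      exact hx
    have hH : IntP v (C (p⁻¹) * act (m + 1 + ρ) a b c d (tri m α β γ)) := by
      intro i
      rw [coeff_C_mul, map_mul, map_inv₀, hp, ← WithZero.exp_neg]
      refine (mul_le_mul' le_rfl (hsm i)).trans ?_
      rw [← WithZero.exp_add, ← WithZero.exp_zero]
      exact WithZero.exp_le_exp.2 (by omega)
    have hI := hH.act (m + 1 + ρ) (a := d / D) (b := -b / D) (c := -c / D) (d := a / D)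
      (hdv _ hd) (hdv _ (by rw [Valuation.map_neg]; exact hb))
      (hdv _ (by rw [Valuation.map_neg]; exact hc)) (hdv _ ha)
    have hdeg : (tri m α β γ).natDegree ≤ m + 1 + ρ :=
      (natDegree_tri_le α β γ).trans (by omega)
    have hdet2 : d / D * (a / D) - -b / D * (-c / D) ≠ 0 := by
      have : d / D * (a / D) - -b / D * (-c / D) = (a * d - b * c) / D / D := by ring
      rw [this]
      exact div_ne_zero (div_ne_zero hdet hdet) hdet
    rw [act_C_mul, act_act hdeg hdet hdet2] at hI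
    have f1 : a * (d / D) + b * (-c / D) = 1 := by
      have : a * (d / D) + b * (-c / D) = (a * d - b * c) / D := by ring
      rw [this, ← hD, div_self hdet]
    have f2 : a * (-b / D) + b * (a / D) = 0 := by ring
    have f3 : c * (d / D) + d * (-c / D) = 0 := by ring
    have f4 : c * (-b / D) + d * (a / D) = 1 := by
      have : c * (-b / D) + d * (a / D) = (a * d - b * c) / D := by ring
      rw [this, ← hD, div_self hdet]
    rw [f1, f2, f3, f4, act_one _ _ hdeg] at hI
    have hcα : (tri m α β γ).coeff (m + 1) = α := by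
      unfold tri
      rw [coeff_add, coeff_add, coeff_C_mul, coeff_C_mul, coeff_X_pow_self, coeff_X, coeff_C,
        if_neg (by omega), if_neg (by omega)]
      ring
    have hcγ : (tri m α β γ).coeff 0 = γ := by
      unfold tri
      rw [coeff_add, coeff_add, coeff_C_mul, coeff_C_mul, coeff_X_pow, coeff_X, coeff_C,
        if_neg (by omega), if_neg (by omega), if_pos rfl]
      ring
    have hlt : ∀ x : K, v.valuation K x = 1 → v.valuation K (p⁻¹ * x) ≤ 1 → False := by
      intro x hx h1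
      rw [map_mul, map_inv₀, hp, hx, mul_one, ← WithZero.exp_neg, ← WithZero.exp_zero,
        WithZero.exp_le_exp] at h1
      omega
    rcases hu with hu | hu
    · have := hI (m + 1)
      rw [coeff_C_mul, hcα] at this
      exact hlt α hu this
    · have := hI 0
      rw [coeff_C_mul, hcγ] at this
      exact hlt γ hu this
  · have hgk : 2 * (k : ℤ) ≤ g * k := by
      have : (2 : ℤ) ≤ g := by exact_mod_cast hg
      have hk1 : (1 : ℤ) ≤ k := by exact_mod_cast hk0
      nlinarith
    push_cast at hcon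
    have hk1 : (1 : ℤ) ≤ k := by exact_mod_cast hk0
    have hcon' : 0 < 2 * lam - (g * k + k) := by linarith
    refine hsh b d hb hd hbd ((shift _ hdx).trans ?_) ((shift _ hdz).trans ?_) (hc0.trans ?_)
    · exact WithZero.exp_le_exp.2 (by omega)
    · exact WithZero.exp_le_exp.2 (by omega)
    · exact WithZero.exp_le_exp.2 (by omega)

/-- the same for all substitutions -/
theorem core3 {g m ρ : ℕ} (hg : 2 ≤ g) (hN : g + 1 + (g + 1) = m + 1 + ρ) (hm : 1 ≤ m)
    (hρ : ρ = 0 ∨ ρ = 1) {v : Pr K} {α β γ : K}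
    (hu : v.valuation K α = 1 ∨ v.valuation K γ = 1) (hsh : Shallow v m ρ α β γ) {p : K}
    (hp : v.valuation K p = WithZero.exp (-1 : ℤ)) {a b c d l : K}
    (hdet : a * d - b * c ≠ 0) (hl : l ≠ 0)
    (hG : IntP v (C (l ^ 2) * act (m + 1 + ρ) a b c d (C p * tri m α β γ))) :
    v.valuation K (l ^ 2 * (a * d - b * c) ^ (g + 1)) ≤ 1 := by
  have hp0 : p ≠ 0 := by
    rintro rfl
    rw [map_zero] at hp
    exact WithZero.exp_ne_zero hp.symm
  have hdeg : (C p * tri m α β γ).natDegree ≤ m + 1 + ρ :=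
    (natDegree_C_mul_le _ _).trans ((natDegree_tri_le α β γ).trans (by omega))
  -- the largest entry
  obtain ⟨μ, hμ, hμa, hμb, hμc, hμd⟩ : ∃ μ : K, (μ = a ∨ μ = b ∨ μ = c ∨ μ = d) ∧
      v.valuation K a ≤ v.valuation K μ ∧ v.valuation K b ≤ v.valuation K μ ∧
      v.valuation K c ≤ v.valuation K μ ∧ v.valuation K d ≤ v.valuation K μ := by
    rcases le_total (v.valuation K a) (v.valuation K b) with h1 | h1 <;>
    rcases le_total (v.valuation K c) (v.valuation K d) with h2 | h2
    · rcases le_total (v.valuation K b) (v.valuation K d) with h3 | h3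
      · exact ⟨d, by tauto, h1.trans h3, h3, h2, le_rfl⟩
      · exact ⟨b, by tauto, h1, le_rfl, h2.trans h3, h3⟩
    · rcases le_total (v.valuation K b) (v.valuation K c) with h3 | h3
      · exact ⟨c, by tauto, h1.trans h3, h3, le_rfl, h2⟩
      · exact ⟨b, by tauto, h1, le_rfl, h3, h2.trans h3⟩
    · rcases le_total (v.valuation K a) (v.valuation K d) with h3 | h3
      · exact ⟨d, by tauto, h3, h1.trans h3, h2, le_rfl⟩
      · exact ⟨a, by tauto, le_rfl, h1, h2.trans h3, h3⟩
    · rcases le_total (v.valuation K a) (v.valuation K c) with h3 | h3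
      · exact ⟨c, by tauto, h3, h1.trans h3, le_rfl, h2⟩
      · exact ⟨a, by tauto, le_rfl, h1, h3, h2.trans h3⟩
  have hμ0 : μ ≠ 0 := by
    rintro rfl
    rw [map_zero] at hμa hμb hμc hμd
    have ha0 : a = 0 := (map_eq_zero _).1 (le_antisymm hμa zero_le)
    have hb0 : b = 0 := (map_eq_zero _).1 (le_antisymm hμb zero_le)
    exact hdet (by rw [ha0, hb0]; ring)
  have hμv : v.valuation K μ ≠ 0 := (v.valuation K).ne_zero_iff.2 hμ0
  have hdiv : ∀ x : K, v.valuation K x ≤ v.valuation K μ → v.valuation K (x / μ) ≤ 1 := by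
    intro x hx
    rw [map_div₀]
    exact div_le_one_of_le₀ hx zero_le
  have hdet' : a / μ * (d / μ) - b / μ * (c / μ) ≠ 0 := by
    have : a / μ * (d / μ) - b / μ * (c / μ) = (a * d - b * c) / μ / μ := by ring
    rw [this]
    exact div_ne_zero (div_ne_zero hdet hμ0) hμ0
  have hl' : l * μ ^ (g + 1) ≠ 0 := mul_ne_zero hl (pow_ne_zero _ hμ0)
  have hsc : act (m + 1 + ρ) a b c d (C p * tri m α β γ) = C (μ ^ (m + 1 + ρ)) *
      act (m + 1 + ρ) (a / μ) (b / μ) (c / μ) (d / μ) (C p * tri m α β γ) := by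
    have h1 := act_act (a := μ) (b := 0) (c := 0) (d := μ) (a' := a / μ) (b' := b / μ)
      (c' := c / μ) (d' := d / μ) hdeg (by simpa using hμ0) hdet'
    have g1 : μ * (a / μ) + 0 * (c / μ) = a := by rw [zero_mul, add_zero, mul_div_cancel₀ a hμ0]
    have g2 : μ * (b / μ) + 0 * (d / μ) = b := by rw [zero_mul, add_zero, mul_div_cancel₀ b hμ0]
    have g3 : 0 * (a / μ) + μ * (c / μ) = c := by rw [zero_mul, zero_add, mul_div_cancel₀ c hμ0]
    have g4 : 0 * (b / μ) + μ * (d / μ) = d := by rw [zero_mul, zero_add, mul_div_cancel₀ d hμ0]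
    rw [act_scalar _ _ _ hdeg, act_C_mul, g1, g2, g3, g4] at h1
    exact h1.symm
  have hG' : IntP v (C ((l * μ ^ (g + 1)) ^ 2) *
      act (m + 1 + ρ) (a / μ) (b / μ) (c / μ) (d / μ) (C p * tri m α β γ)) := by
    have e : C (l ^ 2) * act (m + 1 + ρ) a b c d (C p * tri m α β γ) =
        C ((l * μ ^ (g + 1)) ^ 2) *
          act (m + 1 + ρ) (a / μ) (b / μ) (c / μ) (d / μ) (C p * tri m α β γ) := by
      rw [hsc, ← mul_assoc, ← C_mul]
      congr 2
      rw [← hN]
      ring
    rw [← e]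
    exact hG
  have hval : (l * μ ^ (g + 1)) ^ 2 * (a / μ * (d / μ) - b / μ * (c / μ)) ^ (g + 1) =
      l ^ 2 * (a * d - b * c) ^ (g + 1) := by
    have : a * d - b * c = μ ^ 2 * (a / μ * (d / μ) - b / μ * (c / μ)) := by
      field_simp
    rw [this, mul_pow (μ ^ 2), ← pow_mul, mul_pow, ← pow_mul]
    ring
  have hone : v.valuation K (μ / μ) = 1 := by rw [div_self hμ0, map_one]
  by_cases hbd : v.valuation K (b / μ) = 1 ∨ v.valuation K (d / μ) = 1
  · rw [← hval]
    exact core2 hg hN hm hρ hu hsh hp (hdiv a hμa) (hdiv b hμb) (hdiv c hμc) (hdiv d hμd) hbd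
      hdet' hl' hG'
  · have hac : v.valuation K (a / μ) = 1 ∨ v.valuation K (c / μ) = 1 := by
      rcases hμ with h | h | h | h
      · left; rw [← h]; exact hone
      · exact absurd (Or.inl (by rw [← h]; exact hone)) hbd
      · right; rw [← h]; exact hone
      · exact absurd (Or.inr (by rw [← h]; exact hone)) hbd
    have hsw := hG'.act (m + 1 + ρ) (a := 0) (b := 1) (c := 1) (d := 0) (by simp) (by simp)
      (by simp) (by simp)
    rw [act_C_mul, act_act hdeg hdet' (by norm_num)] at hsw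
    have f1 : a / μ * 0 + b / μ * 1 = b / μ := by ring
    have f2 : a / μ * 1 + b / μ * 0 = a / μ := by ring
    have f3 : c / μ * 0 + d / μ * 1 = d / μ := by ring
    have f4 : c / μ * 1 + d / μ * 0 = c / μ := by ring
    rw [f1, f2, f3, f4] at hsw
    have hdet2 : b / μ * (c / μ) - a / μ * (d / μ) ≠ 0 := by
      intro h
      exact hdet' (by linear_combination -h)
    have h := core2 hg hN hm hρ hu hsh hp (hdiv b hμb) (hdiv a hμa) (hdiv d hμd) (hdiv c hμc) hac
      hdet2 hl' hsw
    rw [← hval]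
    have e : b / μ * (c / μ) - a / μ * (d / μ) = -(a / μ * (d / μ) - b / μ * (c / μ)) := by ring
    rw [e, map_mul, map_pow, map_pow, Valuation.map_neg] at h
    rw [map_mul, map_pow, map_pow]
    exact h

/-- the lower bound for the exponent of the minimal discriminant -/
theorem twisted_low {g m ρ : ℕ} (hg : 2 ≤ g) (hN : g + 1 + (g + 1) = m + 1 + ρ) (hm : 1 ≤ m)
    (hρ : ρ = 0 ∨ ρ = 1) {v : Pr K} (h2 : v.valuation K (2 : K) = 1) {α β γ : K}
    (hu : v.valuation K α = 1 ∨ v.valuation K γ = 1) (hsh : Shallow v m ρ α β γ) {p : K}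
    (hp : v.valuation K p = WithZero.exp (-1 : ℤ)) {F : K[X]} (hF : IsHyp g F)
    (he : Eqv (g + 1) F (C p * tri m α β γ)) {e : ℤ}
    (hq : v.valuation K (discN (g + 1 + (g + 1)) (C p * tri m α β γ)) =
      WithZero.exp (-((4 * g + 2 : ℕ) : ℤ) - e)) :
    ((4 * g + 2 : ℕ) : ℤ) + e ≤ minExp g F v := by
  obtain ⟨H, h3, hint, h4⟩ := min_form hg hF v h2
  have hFd : F.natDegree ≤ g + 1 + (g + 1) := by have := hF.2; omega
  obtain ⟨a, b, c, d, l, hdet, hl, rfl⟩ := (he.symm hFd).trans (he.natDegree_le) h3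
  have hG : GoodForm (g + 1) (C p * tri m α β γ) :=
    Eqv.good (by omega) (Pool.Agent.W318.IsHyp.good hF) he
  have hc : v.valuation K (l ^ 2 * (a * d - b * c) ^ (g + 1)) ≤ 1 := by
    refine core3 hg hN hm hρ hu hsh hp hdet hl ?_
    rw [← hN]
    exact hint
  have hy : l ^ 2 * (a * d - b * c) ^ (g + 1) ≠ 0 :=
    mul_ne_zero (pow_ne_zero _ hl) (pow_ne_zero _ hdet)
  obtain ⟨z, hz⟩ := exists_val v hy
  rw [hz, ← WithZero.exp_zero, WithZero.exp_le_exp] at hc
  rw [Pool.Agent.Y678.SZ.disc_act_val (by omega) hG v hdet hl, map_mul, map_pow, hz, hq,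
    ← WithZero.exp_nsmul, ← WithZero.exp_add] at h4
  have h5 := WithZero.exp_injective h4
  have e1 : 2 * (g + 1 + (g + 1) - 1) = 4 * g + 2 := by omega
  rw [e1, nsmul_eq_mul] at h5
  have h6 : ((4 * g + 2 : ℕ) : ℤ) * z ≤ 0 :=
    mul_nonpos_of_nonneg_of_nonpos (Nat.cast_nonneg _) hc
  linarith

end Pool.Agent.Q19.TR
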