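import Pool.Agent.Q19.TR.Low2

/-!
# The twist by `s (1 - s)`: the exponents at the simple zeros and poles
-/

set_option autoImplicit false

namespace Pool.Agent.Q19.TR

open Polynomial NumberField IsDedekindDomain Pool.Agent.H691R3
open Pool.Agent.TH876.Loc (Pr)
open Pool.Agent.W318 (Eqv IsHyp GoodForm discN minExp act act_C_mul act_act act_one act_scalar
  discN_C_mul minExp_le)
open Pool.Agent.Y733.FF (val_exp fv_exp fv_one_iff fv_le_one_iff)

variable {K : Type} [Field K] [NumberField K]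

theorem exp_lt_one_of {v : Pr K} {d : K} (hd : v.valuation K d < 1) {k : ℕ} (hk : 2 ≤ k) :
    v.valuation K (d ^ k) ≤ WithZero.exp (-2 : ℤ) := by
  rcases eq_or_ne d 0 with rfl | h0
  · rw [zero_pow (by omega), map_zero]
    exact zero_le
  · obtain ⟨x, hx⟩ := exists_val v h0
    rw [hx, ← WithZero.exp_zero, WithZero.exp_lt_exp] at hd
    rw [map_pow, hx, ← WithZero.exp_nsmul, WithZero.exp_le_exp, nsmul_eq_mul]
    have h1 : (2 : ℤ) ≤ k := by exact_mod_cast hk
    nlinarith

theorem nat_val_le (v : Pr K) (n : ℕ) : v.valuation K (n : K) ≤ 1 := by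
  rw [← fv_le_one_iff]
  exact Pool.Agent.TH876.Loc.fv_natCast_le v _

/-- no small values near infinity -/
theorem shallow_inf {m ρ : ℕ} (hm : 2 ≤ m) (hρ : ρ = 0 ∨ ρ = 1) {v : Pr K} {α β γ : K}
    (hα : WithZero.exp (-1 : ℤ) ≤ v.valuation K α) (hβ : v.valuation K β ≤ 1)
    (hγ : v.valuation K γ ≤ 1) {b d : K} (hb : v.valuation K b = 1)
    (hd : v.valuation K d < 1)
    (hz : v.valuation K (Pz m ρ α β γ b d) ≤ WithZero.exp (-2 : ℤ))
    (h0 : v.valuation K (P0 m ρ α β γ b d) ≤ WithZero.exp (-3 : ℤ)) : False := by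
  have key : ∀ x y z w : K, v.valuation K x ≤ 1 → v.valuation K y ≤ 1 →
      α * b ^ (m + 1) = w - x * d ^ m - y * d ^ (m + 1) →
      v.valuation K w ≤ WithZero.exp (-2 : ℤ) → False := by
    intro x y z w hx hy he hw
    have h1 : v.valuation K (α * b ^ (m + 1)) ≤ WithZero.exp (-2 : ℤ) := by
      rw [he]
      refine (Valuation.map_sub _ _ _).trans (max_le ((Valuation.map_sub _ _ _).trans
        (max_le hw ?_)) ?_)
      · rw [map_mul]
        calc _ ≤ 1 * WithZero.exp (-2 : ℤ) := mul_le_mul' hx (exp_lt_one_of hd hm)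
          _ = _ := one_mul _
      · rw [map_mul]
        calc _ ≤ 1 * WithZero.exp (-2 : ℤ) := mul_le_mul' hy (exp_lt_one_of hd (by omega))
          _ = _ := one_mul _
    rw [map_mul, map_pow, hb, one_pow, mul_one] at h1
    have := hα.trans h1
    rw [WithZero.exp_le_exp] at this
    omega
  rcases hρ with rfl | rfl
  · refine key (β * b) γ 0 (P0 m 0 α β γ b d) ?_ hγ ?_ (h0.trans ?_)
    · rw [map_mul, hb, mul_one]; exact hβ
    · unfold P0
      simp only [add_zero, pow_zero]
      ring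
    · exact WithZero.exp_le_exp.2 (by omega)
  · refine key (β * ((m + 1 : ℕ) : K) * b) (γ * ((m + 2 : ℕ) : K)) 0 (Pz m 1 α β γ b d) ?_ ?_ ?_ hz
    · rw [map_mul, map_mul, hb, mul_one]
      exact mul_le_one' hβ (nat_val_le v _)
    · rw [map_mul]
      exact mul_le_one' hγ (nat_val_le v _)
    · unfold Pz
      rw [Nat.add_sub_cancel]
      push_cast
      ring

theorem Px_eq (m ρ : ℕ) (α β b d : K) :
    Px m ρ α β b d = d ^ ρ * (α * (m + 1) * b ^ m + β * d ^ m) := by
  unfold Px
  rw [pow_add]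
  ring

theorem P0_eq (m ρ : ℕ) (α β γ b d : K) : P0 m ρ α β γ b d =
    d ^ ρ * (α * b ^ (m + 1) + β * b * d ^ m + γ * d ^ (m + 1)) := by
  unfold P0
  rw [pow_add, pow_add]
  ring

theorem unit_mul {v : Pr K} {d x : K} (hd : v.valuation K d = 1) (ρ : ℕ)
    {e : WithZero (Multiplicative ℤ)} (h : v.valuation K (d ^ ρ * x) ≤ e) :
    v.valuation K x ≤ e := by
  rwa [map_mul, map_pow, hd, one_pow, one_mul] at h

/-- a simple zero of `1 - s` -/
theorem shallowA {m ρ : ℕ} (hm : 2 ≤ m) (hρ : ρ = 0 ∨ ρ = 1) {v : Pr K} {t s : K}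
    (hvm : v.valuation K (m : K) = 1) (hvn : v.valuation K ((m + 1 : ℕ) : K) = 1)
    (ht : v.valuation K t = 1) (hs1 : v.valuation K (1 - s) = WithZero.exp (-1 : ℤ))
    (hs : (m : K) ^ m * t = (-1) ^ (m + 1) * ((m + 1 : ℕ) : K) ^ (m + 1) * s) :
    Shallow v m ρ 1 t t := by
  intro b d hb hd hbd hx hz h0
  rcases eq_or_ne (v.valuation K d) 1 with hd1 | hd1
  · rw [Px_eq] at hx
    rw [P0_eq] at h0
    have hx' := unit_mul hd1 ρ hx
    have h0' := unit_mul hd1 ρ h0
    rw [one_mul] at hx' h0'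
    -- `(m + 1) Q0 - b Q1 = t d ^ m (m b + (m + 1) d)`
    set R := (m : K) * b + ((m + 1 : ℕ) : K) * d with hR
    have hRv : v.valuation K R ≤ WithZero.exp (-2 : ℤ) := by
      have e : t * d ^ m * R = ((m + 1 : ℕ) : K) * (b ^ (m + 1) + t * b * d ^ m + t * d ^ (m + 1)) -
          b * (((m : K) + 1) * b ^ m + t * d ^ m) := by
        rw [hR]
        push_cast
        ring
      have h1 : v.valuation K (t * d ^ m * R) ≤ WithZero.exp (-2 : ℤ) := by
        rw [e]
        refine (Valuation.map_sub _ _ _).trans (max_le ?_ ?_)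
        · rw [map_mul]
          calc _ ≤ 1 * WithZero.exp (-2 : ℤ) := mul_le_mul' (nat_val_le v _)
                (h0'.trans (WithZero.exp_le_exp.2 (by omega)))
            _ = _ := one_mul _
        · rw [map_mul]
          calc _ ≤ 1 * WithZero.exp (-2 : ℤ) := mul_le_mul' hb hx'
            _ = _ := one_mul _
      rwa [map_mul, map_mul, ht, map_pow, hd1, one_pow, one_mul, one_mul] at h1
    -- `m ^ m Q1 = (m + 1) (m b) ^ m + m ^ m t d ^ m`
    set x := (m : K) * b with hxd
    set y := -(((m + 1 : ℕ) : K) * d) with hyd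
    have hxy : x - y = R := by rw [hyd, hR]; ring
    have hgeom := geom_sum₂_mul x y m
    have hxv : v.valuation K x ≤ 1 := by
      rw [hxd, map_mul]; exact mul_le_one' (nat_val_le v _) hb
    have hyv : v.valuation K y ≤ 1 := by
      rw [hyd, Valuation.map_neg, map_mul]; exact mul_le_one' (nat_val_le v _) hd
    have hpw : v.valuation K (x ^ m - y ^ m) ≤ WithZero.exp (-2 : ℤ) := by
      rw [← hgeom, map_mul, hxy]
      calc _ ≤ 1 * WithZero.exp (-2 : ℤ) := mul_le_mul' (Valuation.map_sum_le _ fun i _ => by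
            rw [map_mul, map_pow, map_pow]
            exact mul_le_one' (pow_le_one' hxv _) (pow_le_one' hyv _)) hRv
        _ = _ := one_mul _
    have e2 : (-1) ^ m * ((m + 1 : ℕ) : K) ^ (m + 1) * d ^ m * (1 - s) =
        (m : K) ^ m * (((m : K) + 1) * b ^ m + t * d ^ m) -
          ((m + 1 : ℕ) : K) * (x ^ m - y ^ m) := by
      have e3 : y ^ m = (-1) ^ m * ((m + 1 : ℕ) : K) ^ m * d ^ m := by
        rw [hyd, neg_pow, mul_pow]; ring
      have e4 : x ^ m = (m : K) ^ m * b ^ m := by rw [hxd, mul_pow]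
      have e5 : (m : K) ^ m * (((m : K) + 1) * b ^ m + t * d ^ m) =
          ((m : K) + 1) * ((m : K) ^ m * b ^ m) + ((m : K) ^ m * t) * d ^ m := by ring
      rw [e5, hs, e3, e4]
      push_cast
      ring
    have h3 : v.valuation K ((-1) ^ m * ((m + 1 : ℕ) : K) ^ (m + 1) * d ^ m * (1 - s)) ≤
        WithZero.exp (-2 : ℤ) := by
      rw [e2]
      refine (Valuation.map_sub _ _ _).trans (max_le ?_ ?_)
      · rw [map_mul, map_pow, hvm, one_pow, one_mul]
        exact hx'
      · rw [map_mul, hvn, one_mul]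
        exact hpw
    rw [map_mul, map_mul, map_mul, map_pow, map_pow, map_pow, Valuation.map_neg, map_one, hvn,
      hd1, one_pow, one_pow, one_mul, one_mul, one_mul, hs1, WithZero.exp_le_exp] at h3
    omega
  · have hb1 : v.valuation K b = 1 := by
      rcases hbd with h | h
      · exact h
      · exact absurd h hd1
    exact shallow_inf hm hρ (by
      rw [map_one, ← WithZero.exp_zero]; exact WithZero.exp_le_exp.2 (by omega)) ht.le ht.le hb1
      (lt_of_le_of_ne hd hd1) hz h0

/-- a simple zero of `s` -/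
theorem shallowB {m ρ : ℕ} (hm : 2 ≤ m) (hρ : ρ = 0 ∨ ρ = 1) {v : Pr K} {t : K}
    (hvn : v.valuation K ((m + 1 : ℕ) : K) = 1)
    (ht : v.valuation K t = WithZero.exp (-1 : ℤ)) : Shallow v m ρ 1 t t := by
  intro b d hb hd hbd hx hz h0
  have ht1 : v.valuation K t ≤ 1 := by
    rw [ht, ← WithZero.exp_zero]
    exact WithZero.exp_le_exp.2 (by omega)
  rcases eq_or_ne (v.valuation K d) 1 with hd1 | hd1
  · rw [Px_eq] at hx
    have hx' := unit_mul hd1 ρ hx
    rw [one_mul] at hx'
    have htd : v.valuation K (t * d ^ m) = WithZero.exp (-1 : ℤ) := by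
      rw [map_mul, map_pow, hd1, one_pow, mul_one, ht]
    have h1 : v.valuation K (((m + 1 : ℕ) : K) * b ^ m) = WithZero.exp (-1 : ℤ) := by
      have e : ((m + 1 : ℕ) : K) * b ^ m = (((m : K) + 1) * b ^ m + t * d ^ m) - t * d ^ m := by
        push_cast
        ring
      rw [e, Valuation.map_sub_eq_of_lt_right, htd]
      rw [htd]
      exact lt_of_le_of_lt hx' (WithZero.exp_lt_exp.2 (by omega))
    rw [map_mul, hvn, one_mul] at h1
    rcases eq_or_ne b 0 with rfl | hb0
    · rw [zero_pow (by omega), map_zero] at h1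
      exact WithZero.exp_ne_zero h1.symm
    · obtain ⟨x, hx0⟩ := exists_val v hb0
      rw [map_pow, hx0, ← WithZero.exp_nsmul] at h1
      have h2 := WithZero.exp_injective h1
      rw [nsmul_eq_mul] at h2
      have hm' : (2 : ℤ) ≤ m := by exact_mod_cast hm
      rcases lt_trichotomy x 0 with hx1 | hx1 | hx1
      · nlinarith
      · rw [hx1, mul_zero] at h2
        omega
      · nlinarith
  · have hb1 : v.valuation K b = 1 := by
      rcases hbd with h | h
      · exact h
      · exact absurd h hd1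
    exact shallow_inf hm hρ (by
      rw [map_one, ← WithZero.exp_zero]; exact WithZero.exp_le_exp.2 (by omega)) ht1 ht1 hb1
      (lt_of_le_of_ne hd hd1) hz h0

/-- a simple pole of `s` -/
theorem shallowC {m ρ : ℕ} (hm : 2 ≤ m) (hρ : ρ = 0 ∨ ρ = 1) {v : Pr K} {α : K}
    (hα : v.valuation K α = WithZero.exp (-1 : ℤ)) : Shallow v m ρ α 1 1 := by
  intro b d hb hd hbd hx hz h0
  rcases eq_or_ne (v.valuation K d) 1 with hd1 | hd1
  · rw [Px_eq] at hx
    have hx' := unit_mul hd1 ρ hx
    rw [one_mul] at hx'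
    have h1 : v.valuation K (α * (m + 1) * b ^ m) ≤ WithZero.exp (-1 : ℤ) := by
      have : (m : K) + 1 = ((m + 1 : ℕ) : K) := by push_cast; ring
      rw [map_mul, map_mul, hα, this, map_pow]
      calc _ ≤ WithZero.exp (-1 : ℤ) * 1 * 1 :=
            mul_le_mul' (mul_le_mul' le_rfl (nat_val_le v _)) (pow_le_one' hb _)
        _ = _ := by rw [mul_one, mul_one]
    have h2 : v.valuation K (α * (m + 1) * b ^ m + d ^ m) = 1 := by
      rw [Valuation.map_add_eq_of_lt_right, map_pow, hd1, one_pow]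
      rw [map_pow, hd1, one_pow, ← WithZero.exp_zero]
      exact lt_of_le_of_lt h1 (WithZero.exp_lt_exp.2 (by omega))
    rw [h2, ← WithZero.exp_zero, WithZero.exp_le_exp] at hx'
    omega
  · have hb1 : v.valuation K b = 1 := by
      rcases hbd with h | h
      · exact h
      · exact absurd h hd1
    exact shallow_inf hm hρ hα.ge (by rw [map_one]) (by rw [map_one]) hb1
      (lt_of_le_of_ne hd hd1) hz h0

end Pool.Agent.Q19.TR
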