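import Pool.Agent.Q19.TR.Low3
import Pool.Agent.Q19.TR.Global

/-!
# The twist by `s (1 - s)`: Szpiro's inequality fails for the exponents below `4 (4 g + 2) / 3`
-/

set_option autoImplicit false

namespace Pool.Agent.Q19.TR

open Polynomial NumberField IsDedekindDomain Pool.Agent.H691R3
open Pool.Agent.TH876.Loc (Pr Pt M df L one_le_M sp mem_sp hgt df_nonneg hgt_nonneg)
open Pool.Agent.W318 (Eqv IsHyp GoodForm discN minExp act act_C_mul act_act act_one act_scalar
  discN_C_mul minExp_le discNorm badNorm)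
open Pool.Agent.Y733.FF (val_exp fv_exp fv_one_iff fv_le_one_iff)
open Pool.Agent.Q19.JL (T6 mem_T6 zz n1728 zz_add pt_zz fv_zz fv_zz1 cases4 ll ll_zero ll_pos RR
  RR_eq DD DD_le AA_le sum_AA sum_df_le Iv ll_nonneg)

variable {K : Type} [Field K] [NumberField K]

theorem tri_one (m : ℕ) (t : K) : tri m 1 t t = tr (m + 1) t := by
  unfold tri tr
  rw [C_1, one_mul, add_assoc]

theorem tri_mul (m : ℕ) (d a b c : K) : tri m (d * a) (d * b) (d * c) = C d * tri m a b c := by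
  unfold tri
  rw [C_mul, C_mul, C_mul]
  ring

theorem isInv_twist {m : ℕ} {s t : K} (D : K)
    (hs : (m : K) ^ m * t = (-1) ^ (m + 1) * ((m + 1 : ℕ) : K) ^ (m + 1) * s) :
    IsInv m s D (D * t) (D * t) := by
  unfold IsInv
  rw [pow_succ (D * t)]
  linear_combination (D * (D * t) ^ m) * hs

theorem val_t {m : ℕ} {s t : K} {v : Pr K} (hvm : v.valuation K (m : K) = 1)
    (hvn : v.valuation K ((m + 1 : ℕ) : K) = 1)
    (hs : (m : K) ^ m * t = (-1) ^ (m + 1) * ((m + 1 : ℕ) : K) ^ (m + 1) * s) :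
    v.valuation K t = v.valuation K s := by
  have h := congrArg (v.valuation K) hs
  rw [map_mul, map_pow, map_mul, map_mul, map_pow, map_pow, Valuation.map_neg, map_one, hvm, hvn,
    one_pow, one_pow, one_mul, one_mul, one_mul] at h
  exact h

theorem val_discr {m : ℕ} (hm : 1 ≤ m) {s t : K} {v : Pr K} (ht : t ≠ 0)
    (hvn : v.valuation K ((m + 1 : ℕ) : K) = 1)
    (hs : (m : K) ^ m * t = (-1) ^ (m + 1) * ((m + 1 : ℕ) : K) ^ (m + 1) * s) {p q : ℤ}
    (hp : v.valuation K t = WithZero.exp p) (hq : v.valuation K (1 - s) = WithZero.exp q) :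
    v.valuation K (tr (m + 1) t).discr = WithZero.exp (m * p + q) := by
  obtain ⟨e, he⟩ := tr_discr' hm ht hs
  rw [he, map_mul, map_pow, Valuation.map_neg, map_one, one_pow, one_mul, map_mul, map_mul,
    map_pow, map_pow, hvn, one_pow, one_mul, hp, hq, ← WithZero.exp_nsmul, ← WithZero.exp_add,
    nsmul_eq_mul]

theorem val_discN {g m : ℕ} (hm : m = 2 * g ∨ m = 2 * g + 1) (hg : 2 ≤ g) {s t d : K} {v : Pr K}
    (ht : t ≠ 0) (hd : d ≠ 0) (hvn : v.valuation K ((m + 1 : ℕ) : K) = 1)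
    (hs : (m : K) ^ m * t = (-1) ^ (m + 1) * ((m + 1 : ℕ) : K) ^ (m + 1) * s) {p q r : ℤ}
    (hp : v.valuation K t = WithZero.exp p) (hq : v.valuation K (1 - s) = WithZero.exp q)
    (hr : v.valuation K d = WithZero.exp r) :
    v.valuation K (discN (g + 1 + (g + 1)) (C d * tr (m + 1) t)) =
      WithZero.exp (((4 * g + 2 : ℕ) : ℤ) * r + (m * p + q)) := by
  have hgood : (tr (m + 1) t).natDegree = g + 1 + (g + 1) ∨
      (tr (m + 1) t).natDegree + 1 = g + 1 + (g + 1) := by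
    rw [tr_deg (by omega)]
    omega
  rw [discN_C_mul (by omega) hd hgood, discN_monic (tr_monic (by omega) t), map_mul, map_pow,
    hr, val_discr (by omega) ht hvn hs hp hq, ← WithZero.exp_nsmul, ← WithZero.exp_add]
  congr 1
  have : 2 * (g + 1 + (g + 1) - 1) = 4 * g + 2 := by omega
  rw [this, nsmul_eq_mul]

/-- the lower bound at the simple zeros and poles -/
theorem loc_low {g m : ℕ} (hm : m = 2 * g ∨ m = 2 * g + 1) (hg : 2 ≤ g) {s t : K} (h0 : s ≠ 0)
    (h1 : s ≠ 1)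
    (hs : (m : K) ^ m * t = (-1) ^ (m + 1) * ((m + 1 : ℕ) : K) ^ (m + 1) * s) (v : Pr K)
    (h2 : v.valuation K (2 : K) = 1) (hvm : v.valuation K (m : K) = 1)
    (hvn : v.valuation K ((m + 1 : ℕ) : K) = 1) {p q e : ℤ}
    (hp : v.valuation K s = WithZero.exp p) (hq : v.valuation K (1 - s) = WithZero.exp q)
    (hpq : (p = 0 ∧ q = -1 ∧ e = 1) ∨ (p = -1 ∧ q = 0 ∧ e = m) ∨
      (p = 1 ∧ q = 1 ∧ e = 4 * g + 1 - m)) :
    ((4 * g + 2 : ℕ) : ℤ) + e ≤
      minExp g (tri m (s * (1 - s)) (s * (1 - s) * t) (s * (1 - s) * t)) v := by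
  set D := s * (1 - s) with hD
  have hD0 : D ≠ 0 := mul_ne_zero h0 (sub_ne_zero.2 (Ne.symm h1))
  have ht : t ≠ 0 := by
    rintro rfl
    rw [mul_zero] at hs
    exact mul_ne_zero (mul_ne_zero (pow_ne_zero _ (by simp)) (pow_ne_zero _
      (Nat.cast_ne_zero.2 (by omega)))) h0 hs.symm
  have hF : IsHyp g (tri m D (D * t) (D * t)) :=
    hyp_tri hm hg hD0 (mul_ne_zero hD0 ht) (mul_ne_zero hD0 ht) h1 (isInv_twist D hs)
  have hvt : v.valuation K t = WithZero.exp p := by rw [val_t hvm hvn hs, hp]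
  have hvD : v.valuation K D = WithZero.exp (p + q) := by
    rw [hD, map_mul, hp, hq, ← WithZero.exp_add]
  have hFe : tri m D (D * t) (D * t) = C D * tri m 1 t t := by
    rw [← tri_mul, mul_one]
  have hFd : (tri m D (D * t) (D * t)).natDegree ≤ g + 1 + (g + 1) := by
    have := hF.2; omega
  obtain ⟨ρ, hρ, hN⟩ : ∃ ρ : ℕ, (ρ = 0 ∨ ρ = 1) ∧ g + 1 + (g + 1) = m + 1 + ρ := by
    rcases hm with h | h
    · exact ⟨1, Or.inr rfl, by omega⟩
    · exact ⟨0, Or.inl rfl, by omega⟩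
  rcases hpq with ⟨rfl, rfl, rfl⟩ | ⟨rfl, rfl, rfl⟩ | ⟨rfl, rfl, rfl⟩
  · refine twisted_low hg hN (by omega) hρ h2 (Or.inl (map_one _))
      (shallowA (by omega) hρ hvm hvn (by rw [hvt, WithZero.exp_zero]) hq hs)
      (p := D) (by rw [hvD]; congr 1) hF ?_ ?_
    · rw [← hFe]
      exact Eqv.refl hFd
    · rw [tri_one, val_discN hm hg ht hD0 hvn hs hvt hq hvD]
      congr 1
      ring
  · refine twisted_low hg hN (by omega) hρ h2 (Or.inl (map_one _))
      (shallowB (by omega) hρ hvn hvt) (p := D) (by rw [hvD]; congr 1) hF ?_ ?_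
    · rw [← hFe]
      exact Eqv.refl hFd
    · rw [tri_one, val_discN hm hg ht hD0 hvn hs hvt hq hvD]
      congr 1
      ring
  · have hti : v.valuation K t⁻¹ = WithZero.exp (-1 : ℤ) := by
      rw [map_inv₀, hvt, ← WithZero.exp_neg]
    have hti0 : t⁻¹ ≠ 0 := inv_ne_zero ht
    have htri : C (D * t⁻¹ ^ 3) * tri m t⁻¹ 1 1 = C (D * t⁻¹ ^ 4) * tr (m + 1) t := by
      have : tri m t⁻¹ 1 1 = C t⁻¹ * tri m 1 t t := by
        rw [← tri_mul, mul_one, inv_mul_cancel₀ ht]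
      rw [this, tri_one, ← mul_assoc, ← C_mul]
      congr 2
      ring
    refine twisted_low hg hN (by omega) hρ h2 (Or.inr (map_one _))
      (shallowC (by omega) hρ hti) (p := D * t⁻¹ ^ 3) ?_ hF ?_ ?_
    · rw [map_mul, map_pow, hvD, hti, ← WithZero.exp_nsmul, ← WithZero.exp_add]
      congr 1
    · refine ⟨1, 0, 0, 1, t⁻¹ ^ 2, by simp, pow_ne_zero _ hti0, ?_⟩
      rw [act_one _ _ hFd, htri, hFe, tri_one, ← mul_assoc, ← C_mul]
      congr 2
      ring
    · rw [htri, val_discN hm hg ht (mul_ne_zero hD0 (pow_ne_zero _ hti0)) hvn hs hvt hq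
        (r := -2) (by
          rw [map_mul, map_pow, hvD, hti, ← WithZero.exp_nsmul, ← WithZero.exp_add]
          congr 1)]
      congr 1
      push_cast
      ring

/-- good reduction elsewhere -/
theorem good_off' {g m : ℕ} (hm : m = 2 * g ∨ m = 2 * g + 1) (hg : 2 ≤ g) {s t : K} (h0 : s ≠ 0)
    (h1 : s ≠ 1)
    (hs : (m : K) ^ m * t = (-1) ^ (m + 1) * ((m + 1 : ℕ) : K) ^ (m + 1) * s) (v : Pr K)
    (h2 : v.valuation K (2 : K) = 1) (hvm : v.valuation K (m : K) = 1)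
    (hvn : v.valuation K ((m + 1 : ℕ) : K) = 1)
    (hp : v.valuation K s = 1) (hq : v.valuation K (1 - s) = 1) :
    minExp g (tri m (s * (1 - s)) (s * (1 - s) * t) (s * (1 - s) * t)) v = 0 := by
  set D := s * (1 - s) with hD
  have hD0 : D ≠ 0 := mul_ne_zero h0 (sub_ne_zero.2 (Ne.symm h1))
  have ht : t ≠ 0 := by
    rintro rfl
    rw [mul_zero] at hs
    exact mul_ne_zero (mul_ne_zero (pow_ne_zero _ (by simp)) (pow_ne_zero _
      (Nat.cast_ne_zero.2 (by omega)))) h0 hs.symm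
  have hF : IsHyp g (tri m D (D * t) (D * t)) :=
    hyp_tri hm hg hD0 (mul_ne_zero hD0 ht) (mul_ne_zero hD0 ht) h1 (isInv_twist D hs)
  have hvt : v.valuation K t = 1 := by rw [val_t hvm hvn hs, hp]
  have hvD : v.valuation K D = 1 := by
    rw [hD, map_mul, hp, hq, one_mul]
  have hFe : tri m D (D * t) (D * t) = C D * tri m 1 t t := by
    rw [← tri_mul, mul_one]
  have hFd : (tri m D (D * t) (D * t)).natDegree ≤ g + 1 + (g + 1) := by
    have := hF.2; omega
  have hint : IntP v (tri m D (D * t) (D * t)) :=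
    tri_int hvD.le (by rw [map_mul, hvD, hvt, one_mul]) (by rw [map_mul, hvD, hvt, one_mul])
  obtain ⟨k, hk, -, hle⟩ := minExp_le hF v (Eqv.refl hFd) hint (t := 0) (by
    rw [h2]; simp)
  have hd := val_discN hm hg ht hD0 hvn hs (p := 0) (q := 0) (r := 0)
    (by rw [hvt, WithZero.exp_zero]) (by rw [hq, WithZero.exp_zero])
    (by rw [hvD, WithZero.exp_zero])
  rw [hFe, tri_one, hd] at hk
  have := WithZero.exp_injective hk
  have hk0 : k = 0 := by
    simp only [mul_zero, add_zero] at this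
    omega
  rw [hk0] at hle
  omega

/-- the twist -/
noncomputable def twt (m : ℕ) (s : K) : K :=
  (-1) ^ (m + 1) * ((m + 1 : ℕ) : K) ^ (m + 1) * s / (m : K) ^ m

theorem twt_eq {m : ℕ} (hm : 1 ≤ m) (s : K) :
    (m : K) ^ m * twt m s = (-1) ^ (m + 1) * ((m + 1 : ℕ) : K) ^ (m + 1) * s := by
  have : (m : K) ^ m ≠ 0 := pow_ne_zero _ (Nat.cast_ne_zero.2 (by omega))
  unfold twt
  rw [mul_div_cancel₀ _ this]

/-- the curve `y² = s (1 - s) (x ^ n + t x + t)` -/
noncomputable def ext (m : ℕ) (s : K) : K[X] :=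
  tri m (s * (1 - s)) (s * (1 - s) * twt m s) (s * (1 - s) * twt m s)

open Classical in
theorem sum_le_disc {g : ℕ} {F : K[X]} (hF : IsHyp g F) (T : Finset (Pr K)) :
    ∑ v ∈ T, (minExp g F v : ℝ) * Real.log (Nv v) ≤ Real.log (discNorm g F) := by
  set S := (Pool.Agent.W318.finite_bad hF).toFinset with hSdef
  have hS : ∀ v, minExp g F v ≠ 0 → v ∈ T ∪ S := by
    intro v hv
    rw [Finset.mem_union, hSdef, Set.Finite.mem_toFinset]
    exact Or.inr hv
  rw [log_disc _ hS]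
  exact Finset.sum_le_sum_of_subset_of_nonneg Finset.subset_union_left fun v _ _ =>
    mul_nonneg (Nat.cast_nonneg _) (log_Nv_pos v).le

theorem hyp_ext {g m : ℕ} (hm : m = 2 * g ∨ m = 2 * g + 1) (hg : 2 ≤ g) {s : K} (h0 : s ≠ 0)
    (h1 : s ≠ 1) : IsHyp g (ext m s) ∧ twt m s ≠ 0 ∧ s * (1 - s) ≠ 0 := by
  have hD0 : s * (1 - s) ≠ 0 := mul_ne_zero h0 (sub_ne_zero.2 (Ne.symm h1))
  have hs := twt_eq (by omega : 1 ≤ m) s
  have ht : twt m s ≠ 0 := by
    intro h
    rw [h, mul_zero] at hs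
    exact mul_ne_zero (mul_ne_zero (pow_ne_zero _ (by simp)) (pow_ne_zero _
      (Nat.cast_ne_zero.2 (by omega)))) h0 hs.symm
  exact ⟨hyp_tri hm hg hD0 (mul_ne_zero hD0 ht) (mul_ne_zero hD0 ht) h1 (isInv_twist _ hs), ht,
    hD0⟩

open Classical in
/-- the discriminant of the twist -/
theorem disc_low {g m : ℕ} (hm : m = 2 * g ∨ m = 2 * g + 1) (hg : 2 ≤ g) {j : K} (h0 : j ≠ 0)
    (h1 : j ≠ 1728) :
    (4 * g + 2) * (4 * RR (zz j) - 8 * hgt (zz j)) - (8 * g + 4) * CB K m ≤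
      Real.log (discNorm g (ext m (j / 1728))) := by
  have hs0 : j / 1728 ≠ 0 := div_ne_zero h0 n1728
  have hs1 : j / 1728 ≠ 1 := by
    rw [Ne, div_eq_one_iff_eq n1728]
    exact h1
  obtain ⟨hF, ht, hD0⟩ := hyp_ext hm hg hs0 hs1
  have hs := twt_eq (by omega : 1 ≤ m) (j / 1728)
  have hx := pt_zz h0 h1
  have hm2 : (m : ℝ) ≤ 2 * g + 1 := by
    have : m ≤ 2 * g + 1 := by omega
    exact_mod_cast this
  have hm3 : (2 * g : ℝ) ≤ m := by
    have : 2 * g ≤ m := by omega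
    exact_mod_cast this
  have hg2 : (0 : ℝ) ≤ g := Nat.cast_nonneg _
  have key : ∀ v ∈ sp (zz j) \ T6 K,
      ((4 * g + 2 + m) * (2 * ll v 0 (zz j) - df (Sum.inr v : Pl K) 0 (zz j)) +
      (4 * g + 2 + (4 * g + 1 - m)) * (2 * ll v 1 (zz j) - df (Sum.inr v : Pl K) 1 (zz j)) +
      (4 * g + 2 + 1) * (2 * ll v 2 (zz j) - df (Sum.inr v : Pl K) 2 (zz j)) : ℝ) ≤
      (minExp g (ext m (j / 1728)) v : ℝ) * Real.log (Nv v) +
        (8 * g + 4) * (if v ∈ TB K m then Real.log (Nv v) else 0) := by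
    intro v hv
    rw [Finset.mem_sdiff, mem_sp hx] at hv
    obtain ⟨hv1, hv2⟩ := hv
    have hl := log_Nv_pos v
    have hmin : 0 ≤ (minExp g (ext m (j / 1728)) v : ℝ) * Real.log (Nv v) :=
      mul_nonneg (Nat.cast_nonneg _) hl.le
    have val : ∀ (w : ℤ) (k : ℕ), 1 ≤ k → (0 : ℝ) ≤ w → (w : ℝ) ≤ 4 * g + 2 →
        (k = 1 → v ∉ TB K m → ((4 * g + 2 : ℕ) : ℤ) + w ≤ minExp g (ext m (j / 1728)) v) →
        (4 * g + 2 + w) * (2 * Real.log (Nv v) - k * Real.log (Nv v)) ≤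
        (minExp g (ext m (j / 1728)) v : ℝ) * Real.log (Nv v) +
        (8 * g + 4) * (if v ∈ TB K m then Real.log (Nv v) else 0) := by
      intro w k hk hw0 hw1 himp
      have hk1 : (1 : ℝ) ≤ k := by exact_mod_cast hk
      split_ifs with hT
      · have e1 : 2 * Real.log (Nv v) - k * Real.log (Nv v) ≤ Real.log (Nv v) := by nlinarith
        have e2 : (4 * g + 2 + w : ℝ) * (2 * Real.log (Nv v) - k * Real.log (Nv v)) ≤
            (4 * g + 2 + w) * Real.log (Nv v) :=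
          mul_le_mul_of_nonneg_left e1 (by positivity)
        have e3 : (4 * g + 2 + w : ℝ) * Real.log (Nv v) ≤ (8 * g + 4) * Real.log (Nv v) :=
          mul_le_mul_of_nonneg_right (by linarith) hl.le
        linarith
      · rw [mul_zero, add_zero]
        rcases Nat.lt_or_ge 1 k with hk2 | hk2
        · have hk3 : (2 : ℝ) ≤ k := by exact_mod_cast hk2
          have e1 : 2 * Real.log (Nv v) - k * Real.log (Nv v) ≤ 0 := by nlinarith
          have e2 : (4 * g + 2 + w : ℝ) * (2 * Real.log (Nv v) - k * Real.log (Nv v)) ≤ 0 :=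
            mul_nonpos_of_nonneg_of_nonpos (by positivity) e1
          linarith
        · have hk3 : k = 1 := by omega
          have h5 := himp hk3 hT
          have h6 : (4 * g + 2 + w : ℝ) ≤ minExp g (ext m (j / 1728)) v := by
            have : (((((4 * g + 2 : ℕ) : ℤ) + w : ℤ)) : ℝ) ≤
                ((minExp g (ext m (j / 1728)) v : ℤ) : ℝ) := by exact_mod_cast h5
            push_cast at this
            linarith
          have e3 := mul_le_mul_of_nonneg_right h6 hl.le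
          rw [hk3, Nat.cast_one, one_mul]
          linarith
    have es : fv v (j / 1728) = fv v j := by
      have := fv_zz hv2 j
      unfold zz at this
      rwa [(fv v).map_neg] at this
    have es1 : fv v (1 - j / 1728) = fv v (j - 1728) := by
      have := fv_zz1 hv2 j
      rw [← this]
      congr 1
      unfold zz
      ring
    have low : ∀ p q e : ℤ, Real.log (fv v j) = p * Real.log (Nv v) →
        Real.log (fv v (j - 1728)) = q * Real.log (Nv v) →
        ((p = 0 ∧ q = -1 ∧ e = 1) ∨ (p = -1 ∧ q = 0 ∧ e = m) ∨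
          (p = 1 ∧ q = 1 ∧ e = 4 * g + 1 - m)) → v ∉ TB K m →
        ((4 * g + 2 : ℕ) : ℤ) + e ≤ minExp g (ext m (j / 1728)) v := by
      intro p q e hp hq hpq hT
      obtain ⟨t1, t2, t3, -⟩ := off_TB (by omega : 1 ≤ m) hT
      have t1' : v.valuation K (2 : K) = 1 := by
        rw [← fv_one_iff]
        exact_mod_cast t1
      exact loc_low hm hg hs0 hs1 hs v t1' ((fv_one_iff v).1 t2) ((fv_one_iff v).1 t3)
        (val_of_log v hs0 (by rw [es]; exact hp))
        (val_of_log v (sub_ne_zero.2 (Ne.symm hs1)) (by rw [es1]; exact hq)) hpq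
    rcases cases4 hv2 h0 h1 with ⟨k, hk, a1, a2, a3, a4, a5⟩ | ⟨k, hk, a1, a2, a3, a4, a5⟩ |
      ⟨k, hk, a1, a2, a3, a4, a5⟩ | ⟨a1, a2, a3, a4, a5⟩
    · rw [ll_zero a3, ll_pos hk a4, ll_zero a5, a3, a4, a5]
      have := val (4 * g + 1 - m) k hk (by push_cast; linarith) (by push_cast; linarith)
        fun hk1 hT => low 1 1 _ (by rw [a1, hk1]; push_cast; ring)
          (by rw [a2, hk1]; push_cast; ring) (Or.inr (Or.inr ⟨rfl, rfl, rfl⟩)) hT
      push_cast at this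
      linarith
    · rw [ll_pos hk a3, ll_zero a4, ll_zero a5, a3, a4, a5]
      have := val m k hk (by push_cast; linarith) (by push_cast; linarith)
        fun hk1 hT => low (-1) 0 _ (by rw [a1, hk1]; push_cast; ring)
          (by rw [a2, Real.log_one]; push_cast; ring) (Or.inr (Or.inl ⟨rfl, rfl, rfl⟩)) hT
      push_cast at this
      linarith
    · rw [ll_zero a3, ll_zero a4, ll_pos hk a5, a3, a4, a5]
      have := val 1 k hk (by push_cast; linarith) (by push_cast; linarith)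
        fun hk1 hT => low 0 (-1) _ (by rw [a1, Real.log_one]; push_cast; ring)
          (by rw [a2, hk1]; push_cast; ring) (Or.inl ⟨rfl, rfl, rfl⟩) hT
      push_cast at this
      linarith
    · exact absurd ⟨by rw [fv_zz hv2]; exact a1, by rw [fv_zz1 hv2]; exact a2⟩ hv1
  have hsum := Finset.sum_le_sum key
  rw [Finset.sum_add_distrib, Finset.sum_add_distrib, Finset.sum_add_distrib, ← Finset.mul_sum,
    ← Finset.mul_sum, ← Finset.mul_sum, ← Finset.mul_sum, Finset.sum_sub_distrib,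
    Finset.sum_sub_distrib, Finset.sum_sub_distrib, ← Finset.mul_sum, ← Finset.mul_sum,
    ← Finset.mul_sum] at hsum
  have h4 := sum_le_disc hF (sp (zz j) \ T6 K)
  have h5 : ∑ v ∈ sp (zz j) \ T6 K, (if v ∈ TB K m then Real.log (Nv v) else 0) ≤ CB K m := by
    rw [← Finset.sum_filter]
    refine Finset.sum_le_sum_of_subset_of_nonneg ?_ fun v _ _ => (log_Nv_pos v).le
    intro v hv
    exact (Finset.mem_filter.1 hv).2
  have h6 : (8 * g + 4 : ℝ) * ∑ v ∈ sp (zz j) \ T6 K,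
      (if v ∈ TB K m then Real.log (Nv v) else 0) ≤ (8 * g + 4) * CB K m :=
    mul_le_mul_of_nonneg_left h5 (by positivity)
  have d0 := DD_le hx 0
  have d1 := DD_le hx 1
  have d2 := DD_le hx 2
  have a0 := AA_le hx 0
  have a1 := AA_le hx 1
  have a2 := AA_le hx 2
  have hR := sum_AA h0 h1
  unfold DD at d0 d1 d2
  unfold Pool.Agent.Q19.JL.AA at a0 a1 a2 hR
  set A0 := ∑ v ∈ sp (zz j) \ T6 K, ll v 0 (zz j)
  set A1 := ∑ v ∈ sp (zz j) \ T6 K, ll v 1 (zz j)
  set A2 := ∑ v ∈ sp (zz j) \ T6 K, ll v 2 (zz j)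
  set D0 := ∑ v ∈ sp (zz j) \ T6 K, df (Sum.inr v : Pl K) 0 (zz j)
  set D1 := ∑ v ∈ sp (zz j) \ T6 K, df (Sum.inr v : Pl K) 1 (zz j)
  set D2 := ∑ v ∈ sp (zz j) \ T6 K, df (Sum.inr v : Pl K) 2 (zz j)
  have c0 : (m : ℝ) * (2 * RR (zz j) - 5 * hgt (zz j)) ≤ m * (2 * A0 - D0) :=
    mul_le_mul_of_nonneg_left (by linarith) (Nat.cast_nonneg _)
  have c1 : (4 * g + 1 - m : ℝ) * (2 * RR (zz j) - 5 * hgt (zz j)) ≤
      (4 * g + 1 - m) * (2 * A1 - D1) :=
    mul_le_mul_of_nonneg_left (by linarith) (by linarith)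
  have c2 : 2 * RR (zz j) - 5 * hgt (zz j) ≤ 2 * A2 - D2 := by linarith
  have c3 : (4 * g + 2 : ℝ) * (2 * RR (zz j) - 3 * hgt (zz j)) ≤
      (4 * g + 2) * ((2 * A0 - D0) + (2 * A1 - D1) + (2 * A2 - D2)) :=
    mul_le_mul_of_nonneg_left (by linarith) (by positivity)
  have e0 : (4 * g + 2 + m : ℝ) * (2 * A0 - D0) + (4 * g + 2 + (4 * g + 1 - m)) * (2 * A1 - D1) +
      (4 * g + 2 + 1) * (2 * A2 - D2) = (4 * g + 2) * ((2 * A0 - D0) + (2 * A1 - D1) +
        (2 * A2 - D2)) + m * (2 * A0 - D0) + (4 * g + 1 - m) * (2 * A1 - D1) +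
          (2 * A2 - D2) := by ring
  have e1 : (4 * g + 2 : ℝ) * (4 * RR (zz j) - 8 * hgt (zz j)) =
      (4 * g + 2) * (2 * RR (zz j) - 3 * hgt (zz j)) + m * (2 * RR (zz j) - 5 * hgt (zz j)) +
      (4 * g + 1 - m) * (2 * RR (zz j) - 5 * hgt (zz j)) +
      (2 * RR (zz j) - 5 * hgt (zz j)) := by ring
  rw [e0] at hsum
  rw [e1]
  linarith

open Classical in
/-- the bad primes of the twist -/
theorem bad_up {g m : ℕ} (hm : m = 2 * g ∨ m = 2 * g + 1) (hg : 2 ≤ g) {j : K} (h0 : j ≠ 0)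
    (h1 : j ≠ 1728) : Real.log (badNorm g (ext m (j / 1728))) ≤ RR (zz j) + CB K m := by
  have hs0 : j / 1728 ≠ 0 := div_ne_zero h0 n1728
  have hs1 : j / 1728 ≠ 1 := by
    rw [Ne, div_eq_one_iff_eq n1728]
    exact h1
  obtain ⟨hF, ht, hD0⟩ := hyp_ext hm hg hs0 hs1
  have hs := twt_eq (by omega : 1 ≤ m) (j / 1728)
  have hx := pt_zz h0 h1
  set S := (Pool.Agent.W318.finite_bad hF).toFinset with hSdef
  have hS : ∀ v, v ∈ S ↔ minExp g (ext m (j / 1728)) v ≠ 0 := by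
    intro v
    rw [hSdef, Set.Finite.mem_toFinset]
    rfl
  rw [log_bad S hS, RR_eq]
  have hsub : S ⊆ (sp (zz j) \ T6 K) ∪ TB K m := by
    intro v hv
    rw [Finset.mem_union]
    by_contra hcon
    push Not at hcon
    obtain ⟨c1, c2⟩ := hcon
    obtain ⟨t1, t2, t3, t4⟩ := off_TB (by omega : 1 ≤ m) c2
    have hsp : v ∉ sp (zz j) := fun h => c1 (Finset.mem_sdiff.2 ⟨h, t4⟩)
    obtain ⟨g1, g2⟩ := Pool.Agent.Q19.JL.good_off h0 h1 t4 hsp
    have es : fv v (j / 1728) = fv v j := by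
      have := fv_zz t4 j
      unfold zz at this
      rwa [(fv v).map_neg] at this
    have es1 : fv v (1 - j / 1728) = fv v (j - 1728) := by
      have := fv_zz1 t4 j
      rw [← this]
      congr 1
      unfold zz
      ring
    have t1' : v.valuation K (2 : K) = 1 := by
      rw [← fv_one_iff]
      exact_mod_cast t1
    exact (hS v).1 hv (good_off' hm hg hs0 hs1 hs v t1' ((fv_one_iff v).1 t2)
      ((fv_one_iff v).1 t3) ((fv_one_iff v).1 (by rw [es]; exact g1))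
      ((fv_one_iff v).1 (by rw [es1]; exact g2)))
  refine (Finset.sum_le_sum_of_subset_of_nonneg hsub fun v _ _ => (log_Nv_pos v).le).trans ?_
  have := Finset.sum_union_inter (s₁ := sp (zz j) \ T6 K) (s₂ := TB K m)
    (f := fun v => Real.log (Nv v))
  have h5 : 0 ≤ ∑ v ∈ (sp (zz j) \ T6 K) ∩ TB K m, Real.log (Nv v) :=
    Finset.sum_nonneg fun v _ => (log_Nv_pos v).le
  unfold CB
  linarith

theorem one_le_bad (g : ℕ) (F : K[X]) : (0 : ℝ) ≤ Real.log (badNorm g F) := by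
  apply Real.log_nonneg
  have := bad_pos g F
  have h2 : 0 < badNorm g F := by exact_mod_cast this
  exact_mod_cast h2

/-- **Szpiro's inequality fails for the smaller exponents.** -/
theorem szp_low (K : Type) [Field K] [NumberField K] {g m : ℕ} (hm : m = 2 * g ∨ m = 2 * g + 1)
    (hg : 2 ≤ g) (κ c₀ : ℝ) (hκ : κ < 4 * (4 * g + 2) / 3) :
    ∃ ν X₀ : ℝ, 0 < ν ∧ 1 ≤ X₀ ∧ ∀ X : ℝ, X₀ ≤ X → ∀ S : Set K, S ⊆ Iv K X →
      (∀ j ∈ S, Real.log (discNorm g (ext m (j / 1728))) ≤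
        κ * Real.log (badNorm g (ext m (j / 1728))) + c₀) →
      ((S.ncard : ℕ) : ℝ) ≤ X ^ (-ν) * (Iv K X).ncard := by
  set w : ℝ := 4 * g + 2 with hw
  have hw0 : 0 < w := by positivity
  set κ' : ℝ := max κ 0 with hκ'
  have hk0 : 0 ≤ κ' := le_max_right _ _
  have hk1 : κ' < 4 * w / 3 := max_lt (by linarith) (by positivity)
  -- `D` with `w (4 - 16 / D) = κ'`
  set E : ℝ := 4 - κ' / w with hE
  have hE1 : 8 / 3 < E := by
    have : κ' / w < 4 / 3 := by
      rw [div_lt_iff₀ hw0]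
      linarith
    linarith
  have hM : 1 / 3 < E / 8 := by linarith
  set C1 : ℝ := (8 * g + 4) * CB K m + κ' * CB K m + c₀ with hC1
  set B : ℝ := (|C1| + 1) / (8 * w) with hB
  obtain ⟨ν, X₀, hν, hX₀, hmain⟩ := Pool.Agent.Q19.JL.exc_prop K B hM
  refine ⟨ν, X₀, hν, hX₀, fun X hX S hS hbad => hmain X hX S hS fun j hj => ?_⟩
  intro hcon
  obtain ⟨h0, h1, -⟩ := hS hj
  have hup := hbad j hj
  have hlo := disc_low hm hg h0 h1
  have hbu := bad_up hm hg h0 h1
  rw [← hw] at hlo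
  have hb0 := one_le_bad g (ext m (j / 1728))
  have e1 : κ * Real.log (badNorm g (ext m (j / 1728))) ≤
      κ' * Real.log (badNorm g (ext m (j / 1728))) :=
    mul_le_mul_of_nonneg_right (le_max_left _ _) hb0
  have e2 := mul_le_mul_of_nonneg_left hbu hk0
  -- `8 w hgt ≤ w E RR - 8 w B`
  have e3 := mul_le_mul_of_nonneg_left hcon (by positivity : (0 : ℝ) ≤ 8 * w)
  have e4 : 8 * w * (E / 8 * RR (zz j) - B) = w * E * RR (zz j) - 8 * w * B := by ring
  have e5 : w * E = 4 * w - κ' := by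
    rw [hE]
    field_simp
  have e6 : 8 * w * B = |C1| + 1 := by
    rw [hB]
    field_simp
  rw [e4, e5, e6] at e3
  have e7 := le_abs_self C1
  have e8 : w * (4 * RR (zz j) - 8 * hgt (zz j)) = 4 * w * RR (zz j) - 8 * w * hgt (zz j) := by
    ring
  rw [e8] at hlo
  have e9 : (4 * w - κ') * RR (zz j) = 4 * w * RR (zz j) - κ' * RR (zz j) := by ring
  rw [e9] at e3
  have e10 : κ' * (RR (zz j) + CB K m) = κ' * RR (zz j) + κ' * CB K m := by ring
  rw [e10] at e2
  rw [hC1] at e7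
  linarith

end Pool.Agent.Q19.TR
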