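import Pool.Agent.Y678.SZ.Place

/-!
# The trinomial `x ^ n + t x + t`
-/

set_option autoImplicit false

namespace Pool.Agent.Q19.TR

open Polynomial Pool.Agent.W318

section

variable {k : Type*} [Field k]

/-- `x ^ n + t x + t` -/
noncomputable def tr (n : ℕ) (t : k) : k[X] := X ^ n + (C t * X + C t)

theorem tr_deg {n : ℕ} (hn : 2 ≤ n) (t : k) : (tr n t).natDegree = n := by
  unfold tr
  have h1 : (C t * X + C t : k[X]).natDegree ≤ 1 := natDegree_linear_le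
  rw [natDegree_add_eq_left_of_natDegree_lt, natDegree_X_pow]
  rw [natDegree_X_pow]
  omega

theorem tr_monic {n : ℕ} (hn : 2 ≤ n) (t : k) : (tr n t).Monic := by
  unfold tr
  have h1 : (C t * X + C t : k[X]).natDegree ≤ 1 := natDegree_linear_le
  refine monic_X_pow_add ?_
  refine lt_of_le_of_lt degree_le_natDegree ?_
  exact_mod_cast (by omega : (C t * X + C t : k[X]).natDegree < n)

theorem tr_discr [CharZero k] {m : ℕ} (hm : 1 ≤ m) {t : k} (ht : t ≠ 0) :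
    ∃ s : ℕ, (tr (m + 1) t).discr = (-1) ^ s *
      (((m + 1 : ℕ) : k) ^ (m + 1) * t ^ m + (-1) ^ m * (m : k) ^ m * t ^ (m + 1)) := by
  have hdeg := tr_deg (by omega : 2 ≤ m + 1) t
  have hlc : (tr (m + 1) t).leadingCoeff = 1 := tr_monic (by omega : 2 ≤ m + 1) t
  have hm0 : (m : k) ≠ 0 := Nat.cast_ne_zero.2 (by omega)
  have hn0 : ((m + 1 : ℕ) : k) ≠ 0 := Nat.cast_ne_zero.2 (by omega)
  have h1 := resultant_deriv (f := tr (m + 1) t)
    (natDegree_pos_iff_degree_pos.mp (by rw [hdeg]; omega))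
  have hder : (tr (m + 1) t).derivative = C ((m + 1 : ℕ) : k) * X ^ m + C t := by
    unfold tr
    simp only [derivative_add, derivative_C_mul, derivative_X_pow, derivative_C, add_zero,
      Nat.add_sub_cancel, derivative_X, mul_one]
  have hG : (C ((m + 1 : ℕ) : k) * X ^ m + C t : k[X]).natDegree ≤ m := by
    rw [natDegree_add_C]
    exact natDegree_C_mul_X_pow_le _ _
  have hco : (C ((m + 1 : ℕ) : k) * X ^ m + C t : k[X]).coeff m = ((m + 1 : ℕ) : k) := by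
    rw [coeff_add, coeff_C_mul, coeff_X_pow_self, coeff_C, if_neg (by omega)]
    ring
  have e : tr (m + 1) t = C (t * m / ((m + 1 : ℕ) : k)) * (X - C (-(((m + 1 : ℕ) : k) / m))) +
      (C ((m + 1 : ℕ) : k) * X ^ m + C t) * (C (1 / ((m + 1 : ℕ) : k)) * X) := by
    have e1 : C (t * m / ((m + 1 : ℕ) : k)) * C (-(((m + 1 : ℕ) : k) / m)) = (C (-t) : k[X]) := by
      rw [← C_mul]
      congr 1
      field_simp
    have e2 : C ((m + 1 : ℕ) : k) * C (1 / ((m + 1 : ℕ) : k)) = (1 : k[X]) := by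
      rw [← C_mul, mul_one_div, div_self hn0, C_1]
    have e3 : C (t * m / ((m + 1 : ℕ) : k)) + C t * C (1 / ((m + 1 : ℕ) : k)) = (C t : k[X]) := by
      rw [← C_mul, ← C_add]
      congr 1
      field_simp
      push_cast
      ring
    have e4 : (C (-t) : k[X]) = - C t := C_neg
    calc tr (m + 1) t = X ^ m * X + (C t * X + C t) := by unfold tr; rw [pow_succ]
      _ = (C (t * m / ((m + 1 : ℕ) : k)) + C t * C (1 / ((m + 1 : ℕ) : k))) * X -
          C (t * m / ((m + 1 : ℕ) : k)) * C (-(((m + 1 : ℕ) : k) / m)) +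
          (C ((m + 1 : ℕ) : k) * C (1 / ((m + 1 : ℕ) : k))) * (X ^ m * X) := by
          rw [e1, e2, e3, e4]
          ring
      _ = _ := by ring
  have hP : (C (1 / ((m + 1 : ℕ) : k)) * X : k[X]).natDegree + m ≤ m + 1 := by
    have : (C (1 / ((m + 1 : ℕ) : k)) * X : k[X]).natDegree ≤ 1 :=
      (natDegree_C_mul_le _ _).trans natDegree_X_le
    omega
  have hlin : (C (t * m / ((m + 1 : ℕ) : k)) *
      (X - C (-(((m + 1 : ℕ) : k) / m))) : k[X]).natDegree ≤ 1 :=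
    (natDegree_C_mul_le _ _).trans (natDegree_X_sub_C_le _)
  have h2 : resultant (tr (m + 1) t) (C ((m + 1 : ℕ) : k) * X ^ m + C t) (m + 1) m =
      (-1) ^ (m * m) * ((m + 1 : ℕ) : k) ^ m * ((t * m / ((m + 1 : ℕ) : k)) ^ m *
        (((m + 1 : ℕ) : k) * (-(((m + 1 : ℕ) : k) / m)) ^ m + t)) := by
    have key : ∀ f g : k[X], f.natDegree ≤ 1 → resultant f g (m + 1) m =
        (-1) ^ (m * m) * g.coeff m ^ m * resultant f g 1 m := by
      intro f g hf
      rw [add_comm m 1, resultant_add_left_deg _ _ _ _ _ hf]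
    rw [e, resultant_add_mul_left _ _ _ _ _ hP hG, key _ _ hlin, hco, resultant_C_mul_left,
      resultant_X_sub_C_left _ _ _ hG]
    simp only [eval_add, eval_mul, eval_C, eval_pow, eval_X]
  rw [hder, hdeg, Nat.add_sub_cancel, h2, hlc] at h1
  set σ := (m + 1) * m / 2 with hσ
  refine ⟨σ, ?_⟩
  have hs2 : ((-1 : k)) ^ σ * (-1) ^ σ = 1 := by
    rw [← mul_pow]; simp
  have h3 : (-1) ^ (m * m) * ((m + 1 : ℕ) : k) ^ m * ((t * m / ((m + 1 : ℕ) : k)) ^ m *
        (((m + 1 : ℕ) : k) * (-(((m + 1 : ℕ) : k) / m)) ^ m + t)) =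
      ((m + 1 : ℕ) : k) ^ (m + 1) * t ^ m + (-1) ^ m * (m : k) ^ m * t ^ (m + 1) := by
    have hmm : ((-1 : k)) ^ (m * m) = (-1) ^ m := by
      rcases Nat.even_or_odd m with h | h
      · rw [(h.mul_left m).neg_one_pow, h.neg_one_pow]
      · rw [(h.mul h).neg_one_pow, h.neg_one_pow]
    have hss : ((-1 : k)) ^ m * (-1) ^ m = 1 := by
      rw [← mul_pow]; simp
    have hN := pow_ne_zero m hn0
    have hM := pow_ne_zero m hm0
    rw [hmm, show (-(((m + 1 : ℕ) : k) / m)) ^ m =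
      (-1) ^ m * (((m + 1 : ℕ) : k) ^ m / (m : k) ^ m) by rw [neg_pow, div_pow], div_pow, mul_pow]
    have : (-1) ^ m * ((m + 1 : ℕ) : k) ^ m * (t ^ m * (m : k) ^ m / ((m + 1 : ℕ) : k) ^ m *
        (((m + 1 : ℕ) : k) * ((-1) ^ m * (((m + 1 : ℕ) : k) ^ m / (m : k) ^ m)) + t)) =
        ((-1) ^ m * (-1) ^ m) * (((m + 1 : ℕ) : k) ^ m * ((m + 1 : ℕ) : k) * t ^ m) +
          (-1) ^ m * (m : k) ^ m * (t ^ m * t) := by
      field_simp
    rw [this, hss, one_mul, pow_succ, pow_succ]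
  rw [h3] at h1
  rw [h1]
  rw [mul_one, ← mul_assoc, hs2, one_mul]

theorem tr_discr' [CharZero k] {m : ℕ} (hm : 1 ≤ m) {t s : k} (ht : t ≠ 0)
    (hs : (m : k) ^ m * t = (-1) ^ (m + 1) * ((m + 1 : ℕ) : k) ^ (m + 1) * s) :
    ∃ e : ℕ, (tr (m + 1) t).discr = (-1) ^ e *
      (((m + 1 : ℕ) : k) ^ (m + 1) * t ^ m * (1 - s)) := by
  obtain ⟨e, he⟩ := tr_discr hm ht
  refine ⟨e, ?_⟩
  rw [he]
  congr 1
  have hss : ((-1 : k)) ^ m * (-1) ^ (m + 1) = -1 := by
    rw [pow_succ, ← mul_assoc, ← mul_pow]; simp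
  calc ((m + 1 : ℕ) : k) ^ (m + 1) * t ^ m + (-1) ^ m * (m : k) ^ m * t ^ (m + 1)
      = ((m + 1 : ℕ) : k) ^ (m + 1) * t ^ m + (-1) ^ m * t ^ m * ((m : k) ^ m * t) := by
        rw [pow_succ t m]; ring
    _ = ((m + 1 : ℕ) : k) ^ (m + 1) * t ^ m + ((-1) ^ m * (-1) ^ (m + 1)) * t ^ m *
        (((m + 1 : ℕ) : k) ^ (m + 1) * s) := by rw [hs]; ring
    _ = _ := by rw [hss]; ring

theorem tr_sqfree [CharZero k] {m : ℕ} (hm : 1 ≤ m) {t s : k} (ht : t ≠ 0) (h1 : s ≠ 1)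
    (hs : (m : k) ^ m * t = (-1) ^ (m + 1) * ((m + 1 : ℕ) : k) ^ (m + 1) * s) :
    Squarefree (tr (m + 1) t) := by
  obtain ⟨e, he⟩ := tr_discr' hm ht hs
  have hn0 : ((m + 1 : ℕ) : k) ≠ 0 := Nat.cast_ne_zero.2 (by omega)
  have hD : (tr (m + 1) t).discr ≠ 0 := by
    rw [he]
    refine mul_ne_zero (pow_ne_zero _ (by simp)) (mul_ne_zero (mul_ne_zero (pow_ne_zero _ hn0)
      (pow_ne_zero _ ht)) (sub_ne_zero.2 (Ne.symm h1)))
  rw [← PerfectField.separable_iff_squarefree, Separable]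
  by_contra hc
  have hdeg := tr_deg (by omega : 2 ≤ m + 1) t
  have hr := resultant_deriv (f := tr (m + 1) t)
    (natDegree_pos_iff_degree_pos.mp (by rw [hdeg]; omega))
  have hlc : (tr (m + 1) t).leadingCoeff = 1 := tr_monic (by omega : 2 ≤ m + 1) t
  apply hD
  have hnd : (tr (m + 1) t).derivative.natDegree = (tr (m + 1) t).natDegree - 1 :=
    natDegree_derivative _
  have h0 : resultant (tr (m + 1) t) (tr (m + 1) t).derivative (tr (m + 1) t).natDegree
      ((tr (m + 1) t).natDegree - 1) = 0 := by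
    rw [← hnd]
    refine resultant_eq_zero_iff.2 ⟨?_, hc⟩
    left
    intro h
    rw [h, natDegree_zero] at hdeg
    omega
  rw [h0, hlc, mul_one] at hr
  rcases mul_eq_zero.1 hr.symm with h | h
  · exact absurd h (pow_ne_zero _ (by simp))
  · exact h

end

end Pool.Agent.Q19.TR
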